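import Pool.Agent.Helper98.LV.Scl
import Pool.Agent.Helper30.UNS.Bx

/-! THE SEQUENCE OF BOXES at a window `c`: units `e j → 0`, one box per unit. -/

set_option autoImplicit false

namespace Pool.Agent.Helper98.LV

open Finset Filter Topology Pool.Agent.Helper69.RK Pool.Agent.Helper31.EC
open Pool.Agent.Helper82.TP Pool.Agent.Helper40.EL Pool.Agent.Helper60.CS Pool.Agent.Helper79.NF
open Pool.Agent.Helper31.NSB Pool.Agent.Helper80.HCI Pool.Agent.Helper52.KP Pool.Agent.Helper98.FR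

noncomputable section

open Sp QS

variable {S : Sp} {σ A : ℝ}

/-- A BOX AT THE WINDOW `c`, UNIT `e`: windows `c + e ν i`; the base frame of `z` may be shallower by `tol` -/
structure Cb (s : Sys S 3) (lamf etaf : ℝ → ℝ) (N : Scl σ A) (c e tol : ℝ) where
  L : ℕ → Lab S
  eta : ℕ → ℝ
  b : Bx s (fun i => c + e * N.ν i) (fun i => lamf (c + e * N.ν i)) eta L
  eq : ∀ i, i ≠ 0 → eta i = etaf (c + e * N.ν i)
  le0 : eta 0 ≤ etaf c
  ge0 : etaf c - tol ≤ eta 0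

namespace Cb

variable {s : Sys S 3} {lamf etaf : ℝ → ℝ} {N : Scl σ A} {c e tol : ℝ} (X : Cb s lamf etaf N c e tol)

theorem q0 : c + e * N.ν 0 = c := by rw [N.ν0, mul_zero, add_zero]

theorem wnd (he : 0 < e) (ht : 0 ≤ tol) : Wnd X.b.bd 0 N.ix N.Sc lamf etaf c σ e tol where
  q0 := q0
  lam := fun _ => rfl
  eta := fun i => by
    show etaf (c + e * N.ν i) - tol ≤ X.eta i
    by_cases hi : i = 0
    · subst hi
      rw [q0]
      exact X.ge0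
    · rw [X.eq i hi]
      linarith
  dn := fun a a' h1 h2 h3 => by
    have h4 : c ≤ a := by
      have h5 : X.b.bd.q 0 = c := q0
      rw [← h5]
      exact h1
    exact N.dnw he N.σ_le a a' h4 h2 h3
  ix := fun r hr => by
    show c + e * N.ν (N.ix r) = c + e * r
    rw [N.ix_eq hr]
  nn := fun r hr => N.Sc_nn hr
  le := fun r hr => N.Sc_le hr
  tc := X.b.tc_dg
  yc := X.b.yc_dg

theorem lvt_le {ε : ℝ} (hε : 0 < ε) (he : 0 < e) (X : Cb s lamf etaf N c e (ε * e / 8)) :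
    lvt etaf c ε e ≤ X.b.bd.eta 0 := by
  have h1 : etaf c - ε * e / 8 ≤ X.b.bd.eta 0 := X.ge0
  have : 0 < ε * e := by positivity
  unfold lvt
  linarith

end Cb

/-- the frames of the deepest window in the form of helper30 -/
theorem frm_of {T : Sp} {B : BD T} (D : LD B) {i0 : ℕ} {e : ℝ} {he : 0 < e} {ηn : ℝ} (hη : ηn ≤ B.eta i0) {ix : ℝ → ℕ}
    {Sc : Set ℝ} {w1 w ε : ℝ} {g : Fin 9 → Sc → TR (B.Sj i0 e he)} (r : Sc)
    (hg : ∀ i, ∀ᶠ k in UF, FLit ((B.Sj i0 e he).F k) ((D.rd i0 e he ηn hη ix).K r k) ((g i r).1 k))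
    {b ηm δ : ℝ} (ok : B.Ok i0 (ix r) b ηm δ) (h1 : w * r - ε ≤ 1)
    (fe : FrE (D.rd i0 e he ηn hη ix) (frOf g) w1 w Sc ε) :
    Helper30.UNS.Frm B i0 he (ix r) (B.zT i0 e he ηn hη) (w * r - ε) where
  R := by
    have l : ∀ a, Lt (zc (B.V i0) he (B.V (ix r))) (B.rT i0 e he ok a) := fun a => by
      filter_upwards [B.rT_lt ok a (e := e) (he := he)] with k hk ω ω' h1 h2 h3 h4
      exact hk ω ω' h1 h2 h3 h4.2
    exact ⟨_, _, _, l 0, l 1, l 2, B.R_frame ok⟩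
  z := by
    have l : ∀ a, Lt (zc (B.V i0) he (B.V (ix r))) (g a r) := fun a => by
      filter_upwards [hg a] with k hk ω ω' h1 h2 h3 h4
      exact hk ω ω' h1 h2 h4 (Quotient.sound h3)
    refine ⟨_, _, _, _, l 5, l 6, l 7, l 8, ?_⟩
    have h2 := fe.frZ r r.2
    have e5 : (frOf g).z0 r = QS.mk (g 5 r) := (frOf_f9 g 5 r).symm
    have e6 : (frOf g).k0 r = QS.mk (g 6 r) := (frOf_f9 g 6 r).symm
    have e7 : (frOf g).k1 r = QS.mk (g 7 r) := (frOf_f9 g 7 r).symm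
    have e8 : (frOf g).c r = QS.mk (g 8 r) := (frOf_f9 g 8 r).symm
    rw [e5, e6, e7, e8] at h2
    have h3 : QS.mk (B.zT i0 e he ηn hη - (g 5 r + g 6 r * B.tT i0 e he + g 7 r * B.yT i0 e he + g 8 r * B.RT i0 e he)) ∈
        Id (B.Sj i0 e he) (w * r - ε) := by
      simp only [map_sub, map_add, map_mul]
      exact h2
    rw [Pool.Agent.Helper82.TP.mk_mem_Id', min_eq_left h1] at h3
    have h4 := h3.add (TR.Ag.refl (w * r - ε) (g 5 r + g 6 r * B.tT i0 e he + g 7 r * B.yT i0 e he + g 8 r * B.RT i0 e he))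
    rwa [sub_add_cancel, zero_add] at h4

/-- THE SEQUENCE OF CORNERS at the window `c` -/
structure Sq (s : Sys S 3) (lamf etaf : ℝ → ℝ) (c w1 w : ℝ) (N : Scl σ A) where
  e : ℕ → ℝ
  he : ∀ j, 0 < e j
  e0 : Tendsto e atTop (𝓝 0)
  ε : ℕ → ℝ
  hε : ∀ j, 0 < ε j
  ε0 : Tendsto ε atTop (𝓝 0)
  X : ∀ j, Cb s lamf etaf N c (e j) (ε j * e j / 8)
  g : ∀ j, Fin 9 → N.Sc → TR ((X j).b.bd.Sj 0 (e j) (he j))
  hg : ∀ (i : Fin 9) (r : N.Sc) (j : ℕ), ∀ᶠ k in UF, FLit (((X j).b.bd.Sj 0 (e j) (he j)).F k)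
    (((X j).b.ld.rd 0 (e j) (he j) (lvt etaf c (ε j) (e j)) (Cb.lvt_le (hε j) (he j) (X j)) N.ix).K r k) ((g j i r).1 k)
  fre : ∀ j, FrE ((X j).b.ld.rd 0 (e j) (he j) (lvt etaf c (ε j) (e j)) (Cb.lvt_le (hε j) (he j) (X j)) N.ix)
    (frOf (g j)) w1 w N.Sc (ε j)
  frm : ∀ j, Helper30.UNS.Frm (X j).b.bd 0 (he j) (N.ix σ) ((X j).b.bd.zT 0 (e j) (he j) (lvt etaf c (ε j) (e j))
    (Cb.lvt_le (hε j) (he j) (X j))) (w * σ - ε j)
  C : ℝ
  hT : ∀ j, Typ (S := (X j).b.bd.Sj 0 (e j) (he j))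
    (Lgc (S := (X j).b.bd.Sj 0 (e j) (he j)) ((X j).b.bd.V (N.ix σ)) C)

/-- EXISTENCE OF THE SEQUENCE: the boxes may be chosen with any property `P` -/
theorem exists_sq {s : Sys S 3} (hr : RobustI s) {lamf etaf : ℝ → ℝ} {c w1 w : ℝ} (hl : HasDerivAt lamf w1 c)
    (hh : HasDerivAt etaf w c) (hw1 : 1 ≤ w1) (hw : 1 ≤ w) (hσ : max w1 w * σ = 1) (N : Scl σ A) (E : ℕ → ℝ)
    (hE : ∀ j, 0 < E j) (hE0 : Tendsto E atTop (𝓝 0))
    (hC : ∃ C, ∀ᶠ j in atTop, (Helper40.EL.ic s (c + E j * σ) + (c + E j * σ)) - (Helper40.EL.ic s c + c) ≤ C * E j)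
    (P : ∀ e ε : ℝ, Cb s lamf etaf N c e (ε * e / 8) → Prop)
    (hP : ∀ ε : ℝ, 0 < ε → ∀ᶠ j in atTop, ∃ X : Cb s lamf etaf N c (E j) (ε * E j / 8), P (E j) ε X) :
    ∃ Q : Sq s lamf etaf c w1 w N, (∀ j, P (Q.e j) (Q.ε j) (Q.X j)) ∧
      ∃ φ : ℕ → ℕ, Tendsto φ atTop atTop ∧ ∀ j, Q.e j = E (φ j) := by
  classical
  obtain ⟨C, hC⟩ := hC
  have hσ0 := N.σ_nn
  have key : ∀ m : ℕ, ∃ j, m ≤ j ∧ ∃ X : Cb s lamf etaf N c (E j) (1 / ((m : ℝ) + 1) * E j / 8),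
      P (E j) (1 / ((m : ℝ) + 1)) X ∧ ∃ g : Fin 9 → N.Sc → TR (X.b.bd.Sj 0 (E j) (hE j)),
      (∀ (i : Fin 9) (r : N.Sc), ∀ᶠ k in UF, FLit ((X.b.bd.Sj 0 (E j) (hE j)).F k)
        ((X.b.ld.rd 0 (E j) (hE j) (lvt etaf c (1 / ((m : ℝ) + 1)) (E j))
          (Cb.lvt_le (by positivity) (hE j) X) N.ix).K r k) ((g i r).1 k)) ∧
      FrE (X.b.ld.rd 0 (E j) (hE j) (lvt etaf c (1 / ((m : ℝ) + 1)) (E j)) (Cb.lvt_le (by positivity) (hE j) X) N.ix)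
        (frOf g) w1 w N.Sc (1 / ((m : ℝ) + 1)) ∧
      Helper30.UNS.Frm X.b.bd 0 (hE j) (N.ix σ) (X.b.bd.zT 0 (E j) (hE j) (lvt etaf c (1 / ((m : ℝ) + 1)) (E j))
        (Cb.lvt_le (by positivity) (hE j) X)) (w * σ - 1 / ((m : ℝ) + 1)) ∧
      Typ (S := X.b.bd.Sj 0 (E j) (hE j)) (Lgc (S := X.b.bd.Sj 0 (E j) (hE j)) (X.b.bd.V (N.ix σ)) (C + 1)) := by
    intro m
    have hε : (0 : ℝ) < 1 / ((m : ℝ) + 1) := by positivity
    have hTy : ∀ j, (Helper40.EL.ic s (c + E j * σ) + (c + E j * σ)) - (Helper40.EL.ic s c + c) ≤ C * E j →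
        ∀ X : Cb s lamf etaf N c (E j) (1 / ((m : ℝ) + 1) * E j / 8),
        Typ (S := X.b.bd.Sj 0 (E j) (hE j)) (Lgc (S := X.b.bd.Sj 0 (E j) (hE j)) (X.b.bd.V (N.ix σ)) (C + 1)) := by
      intro j hj X
      have e1 : c + E j * N.ν (N.ix σ) = c + E j * σ := by rw [N.ix_eq N.σ_mem]
      refine X.b.typ_large hr (i0 := 0) (i := N.ix σ) ?_ (E j) (hE j) one_pos ?_
      · show c + E j * N.ν 0 ≤ c + E j * N.ν (N.ix σ)
        rw [Cb.q0, e1]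
        have := mul_nonneg (hE j).le hσ0
        linarith
      · show (Helper40.EL.ic s (c + E j * N.ν (N.ix σ)) + (c + E j * N.ν (N.ix σ))) -
          (Helper40.EL.ic s (c + E j * N.ν 0) + (c + E j * N.ν 0)) ≤ C * E j
        rw [Cb.q0, e1]
        exact hj
    rcases le_total w1 w with hle | hle
    · rw [max_eq_right hle] at hσ
      obtain ⟨e0, he0, h⟩ := exists_fret hl hh hw1 hle hσ0 hσ.le hε
      obtain ⟨j, ⟨h1, h2, h3⟩, h4⟩ := ((hP _ hε).and (hC.and (hE0.eventually (gt_mem_nhds he0)))).and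
        (eventually_ge_atTop m) |>.exists
      obtain ⟨X, hX⟩ := h1
      obtain ⟨ok, hη, hf⟩ := h (E j) (hE j) h3.le X.b.M.sp X.b.bd X.b.ld 0 N.ix N.Sc (X.wnd (hE j) (by
        have := hE j
        positivity))
      exact ⟨j, h4, X, hX, _, fun i r => BD.r9t_lit X.b.ld ok _ hη i r, hf, frm_of X.b.ld hη (⟨σ, N.σ_mem⟩ : N.Sc)
        (fun i => BD.r9t_lit X.b.ld ok _ hη i ⟨σ, N.σ_mem⟩) (ok σ N.σ_mem) (by linarith) hf, hTy j h2 X⟩
    · rw [max_eq_left hle] at hσ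
      obtain ⟨e0, he0, h⟩ := exists_freu hl hh hw hle hσ0 hσ.le hε
      obtain ⟨j, ⟨h1, h2, h3⟩, h4⟩ := ((hP _ hε).and (hC.and (hE0.eventually (gt_mem_nhds he0)))).and
        (eventually_ge_atTop m) |>.exists
      obtain ⟨X, hX⟩ := h1
      obtain ⟨ok, hη, hf⟩ := h (E j) (hE j) h3.le X.b.M.sp X.b.bd X.b.ld 0 N.ix N.Sc (X.wnd (hE j) (by
        have := hE j
        positivity))
      exact ⟨j, h4, X, hX, _, fun i r => BD.r9u_lit X.b.ld ok _ hη i r, hf, frm_of X.b.ld hη (⟨σ, N.σ_mem⟩ : N.Sc)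
        (fun i => BD.r9u_lit X.b.ld ok _ hη i ⟨σ, N.σ_mem⟩) (ok σ N.σ_mem) (by
          have := mul_le_mul_of_nonneg_right hle hσ0
          linarith) hf, hTy j h2 X⟩
  choose φ hφ X hX g hg hf hm hT using key
  have hφt : Tendsto φ atTop atTop := tendsto_atTop_mono hφ tendsto_id
  exact ⟨{ e := fun m => E (φ m), he := fun m => hE _, e0 := hE0.comp hφt, ε := fun m => 1 / ((m : ℝ) + 1)
           hε := fun m => by positivity
           ε0 := tendsto_one_div_add_atTop_nhds_zero_nat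
           X := X, g := g, hg := fun i r j => hg j i r, fre := hf, frm := hm, C := C + 1, hT := hT }, hX, φ, hφt, fun _ => rfl⟩

end

end Pool.Agent.Helper98.LV
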