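import Pool.Agent.Helper98.LV.Seq
import Pool.Agent.Helper71.AGR.Osy
import Pool.Agent.Helper3.H3.Cor

/-! THE COMMON FIELDS of the corners of the sequence of boxes. -/

set_option autoImplicit false

namespace Pool.Agent.Helper98.LV

open Finset Filter Topology Pool.Agent.Helper69.RK Pool.Agent.Helper31.EC
open Pool.Agent.Helper82.TP Pool.Agent.Helper40.EL Pool.Agent.Helper60.CS Pool.Agent.Helper79.NF
open Pool.Agent.Helper31.NSB Pool.Agent.Helper80.HCI Pool.Agent.Helper52.KP Pool.Agent.Helper98.FR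
open Pool.Agent.Helper71.AGR

noncomputable section

open Sp QS

/-- monotone properties which hold eventually for every `ε` hold along a null sequence -/
theorem exists_null {P : ℕ → ℝ → Prop} (hm : ∀ j a b, a ≤ b → P j a → P j b)
    (h : ∀ ε : ℝ, 0 < ε → ∀ᶠ j in atTop, P j ε) :
    ∃ δ : ℕ → ℝ, Tendsto δ atTop (𝓝 0) ∧ (∀ j, 0 < δ j) ∧ ∀ᶠ j in atTop, P j (δ j) := by
  obtain ⟨A, hA⟩ : ∃ A : ℕ → Set ℝ, A = fun j => {ε : ℝ | 0 < ε ∧ P j ε} := ⟨_, rfl⟩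
  have h0 : ∀ j, 0 ≤ sInf (A j) := fun j => Real.sInf_nonneg fun x hx => by
    rw [hA] at hx
    exact hx.1.le
  have hb : ∀ j, BddBelow (A j) := fun j => ⟨0, fun x hx => by
    rw [hA] at hx
    exact hx.1.le⟩
  have hp : ∀ j : ℕ, (0 : ℝ) < 1 / ((j : ℝ) + 1) := fun j => by positivity
  refine ⟨fun j => sInf (A j) + 1 / ((j : ℝ) + 1), ?_, fun j => by linarith [h0 j, hp j], ?_⟩
  · rw [Metric.tendsto_atTop']
    intro ε hε
    obtain ⟨n1, h1⟩ := eventually_atTop.1 (h (ε / 2) (by linarith))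
    obtain ⟨n2, h2⟩ := eventually_atTop.1 (tendsto_one_div_add_atTop_nhds_zero_nat.eventually
      (gt_mem_nhds (show (0 : ℝ) < ε / 2 by linarith)))
    refine ⟨max n1 n2, fun j hj => ?_⟩
    have h3 : sInf (A j) ≤ ε / 2 := csInf_le (hb j) (by
      rw [hA]
      exact ⟨by linarith, h1 j ((le_max_left _ _).trans hj.le)⟩)
    have h4 := h2 j ((le_max_right _ _).trans hj.le)
    rw [Real.dist_eq, sub_zero, abs_of_pos (by linarith [h0 j, hp j])]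
    linarith
  · filter_upwards [h 1 one_pos] with j hj
    have hne : (A j).Nonempty := ⟨1, by rw [hA]; exact ⟨one_pos, hj⟩⟩
    obtain ⟨a, ha, hlt⟩ := exists_lt_of_csInf_lt hne (show sInf (A j) < sInf (A j) + 1 / ((j : ℝ) + 1) by linarith [hp j])
    rw [hA] at ha
    exact hm j a _ hlt.le ha.2

theorem FrE.mono {T : Sp} {H : RD T} {f : FR T} {w1 w : ℝ} {Sc : Set ℝ} {ε ε' : ℝ} (h : FrE H f w1 w Sc ε)
    (hε : ε ≤ ε') : FrE H f w1 w Sc ε' where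
  nest := h.nest
  iA := h.iA
  iB := h.iB
  ft := h.ft
  fy := h.fy
  frR := fun s hs => Id_anti (by linarith) (h.frR s hs)
  frZ := fun s hs => Id_anti (by linarith) (h.frZ s hs)

theorem cce_mono {T : Sp} {H : RD T} {f : FR T} {w1 w g : ℝ} {Sc : Set ℝ} {ε ε' : ℝ} (h : CCe H f w1 w g Sc ε)
    (hε : ε ≤ ε') : CCe H f w1 w g Sc ε' where
  κ0 := h.κ0.trans hε
  nest := h.nest
  iA := h.iA.trans hε
  iA' := h.iA'.trans hε
  iB := h.iB.trans hε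
  iB' := h.iB'.trans hε
  time := le_trans (by linarith) h.time
  leakA := fun s hs => (h.leakA s hs).trans hε
  T1 := fun s hs => (h.T1 s hs).trans hε
  rich := fun q h0 h1 => fun T p E hE => le_trans (by linarith) (h.rich q h0 h1 T p E hE)
  ft := fun s hs => Id_anti (by linarith) (h.ft s hs)
  ft' := fun s hs => (h.ft' s hs).trans hε
  fy := fun s hs => Id_anti (by linarith) (h.fy s hs)
  fy' := fun s hs => (h.fy' s hs).trans hε
  frR := fun s hs => Id_anti (by linarith) (h.frR s hs)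
  frZ := fun s hs => Id_anti (by linarith) (h.frZ s hs)
  full := fun s hs hw => fun T p E hE => le_trans (by linarith) (h.full s hs hw T p E hE)
  agr := h.agr

/-- richness of the velocity of `y` over the point along the scales `e j` (all events of all extensions) -/
def Ryx {S : Sp} (s : Sys S 3) (g : ℝ) (e : ℕ → ℝ) : Prop :=
  ∀ ε : ℝ, 0 < ε → ∀ᶠ j in atTop, ∀ r : ℝ, 0 ≤ r → r ≤ 1 →
    ∀ (T : Sp) (p : Pj T S) (E : ∀ k, (T.F k).Ω → Prop) (hE : 0 < ul (T.pr E)),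
      (g * r - ε) * e j ≤ h (restL E hE (p.map (TR.dg (TR.cor s.x 0) (r * e j)))) (restL E hE (p.map (lB s)))

theorem Ryx.comp {S : Sp} {s : Sys S 3} {g : ℝ} {e : ℕ → ℝ} (h : Ryx s g e) {φ : ℕ → ℕ} (hφ : Tendsto φ atTop atTop) :
    Ryx s g (fun j => e (φ j)) := fun ε hε => hφ.eventually (h ε hε)

namespace Sq

variable {S : Sp} {σ A : ℝ} {s : Sys S 3} {lamf etaf : ℝ → ℝ} {c w1 w : ℝ} {N : Scl σ A} (Q : Sq s lamf etaf c w1 w N)

theorem wnd (j : ℕ) : Wnd (Q.X j).b.bd 0 N.ix N.Sc lamf etaf c σ (Q.e j) (Q.ε j * Q.e j / 8) :=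
  (Q.X j).wnd (Q.he j) (by
    have h1 := Q.he j
    have h2 := Q.hε j
    positivity)

theorem q_ix (j : ℕ) {r : ℝ} (hr : r ∈ N.Sc) : (Q.X j).b.bd.q (N.ix r) = c + Q.e j * r := (Q.wnd j).ix r hr

theorem q_le (j : ℕ) {r r' : ℝ} (hr : r ∈ N.Sc) (hr' : r' ∈ N.Sc) (h : r ≤ r') :
    (Q.X j).b.bd.q (N.ix r) ≤ (Q.X j).b.bd.q (N.ix r') := by
  rw [Q.q_ix j hr, Q.q_ix j hr']
  have := mul_le_mul_of_nonneg_left h (Q.he j).le
  linarith

theorem q_ix0 (j : ℕ) {r : ℝ} (hr : r ∈ N.Sc) : (Q.X j).b.bd.q 0 ≤ (Q.X j).b.bd.q (N.ix r) := by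
  rw [Q.q_ix j hr, (Q.wnd j).q0]
  have := mul_nonneg (Q.he j).le (N.Sc_nn hr)
  linarith

/-- THE CORNERS -/
abbrev H (j : ℕ) : RD ((Q.X j).b.bd.Sj 0 (Q.e j) (Q.he j)) :=
  (Q.X j).b.ld.rd 0 (Q.e j) (Q.he j) (lvt etaf c (Q.ε j) (Q.e j)) (Cb.lvt_le (Q.hε j) (Q.he j) (Q.X j)) N.ix

/-- THE INPUT OF THE DIAGONAL -/
def rin : RIn N.Sc :=
  rinG (fun j => (Q.X j).b.M.sp) (fun j => (Q.X j).b.bd) (fun j => (Q.X j).b.ld) (fun _ => 0) Q.e Q.he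
    (fun j => lvt etaf c (Q.ε j) (Q.e j)) (fun j => Cb.lvt_le (Q.hε j) (Q.he j) (Q.X j)) (fun _ => N.ix)
    (σ := σ) (C := Q.C) (fun j _ hr => Q.q_le j hr N.σ_mem (N.Sc_le hr)) Q.hT Q.g Q.hg

theorem rin_H (j : ℕ) : Q.rin.H j = Q.H j := rfl

theorem nest_ix (j : ℕ) {r r' : ℝ} (hr : r ∈ N.Sc) (hr' : r' ∈ N.Sc) (h : r ≤ r') (k : ℕ) :
    (Q.X j).b.bd.V (N.ix r') k ≤ (Q.X j).b.bd.V (N.ix r) k := (Q.X j).b.nest _ _ (Q.q_le j hr hr' h) k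

/-- trimmed labels are known to their partitions -/
theorem kbot (j : ℕ) {r : ℝ} (hr : r ∈ N.Sc) :
    chgL (S := (Q.X j).b.bd.Sj 0 (Q.e j) (Q.he j)) ((Q.X j).b.bd.V (N.ix r)) 1 one_pos ((Q.rin.inp.H j).κ r) = ⊥ :=
  kap_bot' (Q.X j).b.ld 0 (Q.he j) (Cb.lvt_le (Q.hε j) (Q.he j) (Q.X j)) N.ix (Q.rin.bdd hr j)

/-- the units are small -/
theorem small (hl1 : lamf c < 1) (he1 : etaf c < 1) (u : ℝ) (hu : 0 < u) : ∀ᶠ j in atTop,
    Q.e j ≤ u ∧ lamf c + Q.e j ≤ 1 ∧ lvt etaf c (Q.ε j) (Q.e j) + Q.e j ≤ 1 := by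
  filter_upwards [Q.e0.eventually (gt_mem_nhds (show (0 : ℝ) < min u (min (1 - lamf c) (1 - etaf c)) from
    lt_min hu (lt_min (by linarith) (by linarith))))] with j hj
  have h1 := hj.le.trans (min_le_left _ _)
  have h2 := hj.le.trans ((min_le_right _ _).trans (min_le_left _ _))
  have h3 := hj.le.trans ((min_le_right _ _).trans (min_le_right _ _))
  refine ⟨h1, by linarith, ?_⟩
  unfold lvt
  have h4 := Q.he j
  have h5 := Q.hε j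
  have : 0 < Q.ε j * Q.e j := by positivity
  linarith

theorem lam0 (j : ℕ) : (Q.X j).b.bd.lam 0 = lamf c := by rw [(Q.wnd j).lam, (Q.wnd j).q0]

/-- THE COMMON FIELDS (approximate), from richness and the independence of the direction -/
theorem cce (hl : HasDerivAt lamf w1 c) (hc : c < 1) (hl1 : lamf c < 1) (he1 : etaf c < 1) (hσ : σ ≤ 1)
    {g : ℝ} (hR : Ryx s g Q.e)
    (T1 : ∀ ε : ℝ, 0 < ε → ∀ᶠ j in atTop, ∀ r ∈ N.Sc,
      Helper31.EC.I (dg (Q.H j).x 1) ((Q.rin.inp.H j).κ r ⊔ (Q.H j).B) ⊥ ≤ ε) :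
    ∀ ε : ℝ, 0 < ε → ∀ᶠ j in atTop, CCe (Q.rin.inp.H j) (Q.rin.inp.f j) w1 w g N.Sc ε := by
  intro ε hε
  obtain ⟨e0, he0, hf⟩ := Helper3.H3.exists_full hl hc hl1 N.σ_nn hε
  filter_upwards [Q.small hl1 he1 e0 he0, T1 ε hε, Q.ε0.eventually (gt_mem_nhds hε), hR ε hε] with j hj hT hεj hRj
  obtain ⟨k1, k2, k3⟩ := hj
  have ho := ofSys_bx (Q.X j).b
  have k2' : (Q.X j).b.bd.lam 0 + Q.e j ≤ 1 := by
    rw [Q.lam0 j]
    exact k2
  refine cce_of Q.rin j hε.le (FrE.mono (Q.fre j) hεj.le) N.zero_mem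
    ((Q.X j).b.ld.k0 0 (Q.e j) (Q.he j) _ _ N.ix N.ix0) ?_ ?_ hT ?_ ?_ ?_
  · have h1 := ho.time 0 (Q.he j) (Cb.lvt_le (Q.hε j) (Q.he j) (Q.X j)) N.ix k2' k3
    exact (show (1 : ℝ) - ε ≤ 1 by linarith).trans h1.ge
  · intro r hr
    refine le_trans (le_of_eq ?_) hε.le
    refine ho.leakA 0 (Q.he j) (Cb.lvt_le (Q.hε j) (Q.he j) (Q.X j)) N.ix k2' k3 (i := N.ix r) (N.Sc_nn hr)
      ((N.Sc_le hr).trans hσ) ?_ (Q.kbot j hr)
    rw [Q.q_ix j hr, (Q.wnd j).q0]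
  · intro q hq hq1
    have hq0 : (0 : ℝ) ≤ q := by exact_mod_cast hq.le
    have hq1' : (q : ℝ) ≤ 1 := by exact_mod_cast hq1
    have h3 := ge_ovr s (ho.kap 0).dm (Q.he j) (TR.dg (TR.cor s.x 0) (Q.e j * q)) (g := g * q - ε) (fun T p E hE => by
      have h4 := hRj q hq0 hq1' T p E hE
      rwa [mul_comm (q : ℝ)] at h4) (ho.B_up 0 (Q.he j) (Cb.lvt_le (Q.hε j) (Q.he j) (Q.X j)) N.ix k2' k3)
    have h5 := ho.xT_up 0 (Q.he j) (Cb.lvt_le (Q.hε j) (Q.he j) (Q.X j)) N.ix hq1'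
    exact (congrArg (fun X => Slow.RobGe X (Q.H j).B (g * q - ε)) h5).mpr h3
  · intro r hr _
    refine hf (Q.e j) (Q.he j) k1 _ (Q.X j).b.bd (Q.X j).b.ld 0 N.ix N.Sc etaf _ (Q.wnd j)
      _ (Cb.lvt_le (Q.hε j) (Q.he j) (Q.X j)) r hr (fun k => (Q.X j).b.nest _ _ (Q.q_ix0 j hr) k) _ ?_
    exact Q.rin.chg_bot (j := j) (zc ((Q.X j).b.bd.V 0) (Q.he j) ((Q.X j).b.bd.V (N.ix r))) hr
      (Eventually.of_forall fun k ω ω' _ _ _ h => Quotient.sound h)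
  · intro r hr r' hr' h
    exact ho.agW 0 (Q.he j) (Cb.lvt_le (Q.hε j) (Q.he j) (Q.X j)) N.ix k2' k3 (Q.q_ix0 j hr) (Q.q_le j hr hr' h)

end Sq

end

end Pool.Agent.Helper98.LV
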