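import Pool.Agent.Helper98.LV.Seq
import Pool.Agent.Helper19.S12.Win

/-! THE BOXES at a typical window: depths `lR`, `lz` of the slab of `P_1` over `(t, P_0)` and of the sheet of `P_2`. -/

set_option autoImplicit false

namespace Pool.Agent.Helper98.LV

open Finset Filter Topology Pool.Agent.Helper69.RK Pool.Agent.Helper31.EC Pool.Agent.Helper31.EC.Sp
open Pool.Agent.Helper82.TP Pool.Agent.Helper40.EL Pool.Agent.Helper60.CS Pool.Agent.Helper79.NF
open Pool.Agent.Helper31.NSB Pool.Agent.Helper80.HCI Pool.Agent.Helper52.KP Pool.Agent.Helper98.FR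
open Pool.Agent.Helper19.S12 Pool.Agent.Helper91.GR

noncomputable section

variable {S : Sp}

/-- depth of the slab of `R = P_1` over `(t, P_0)` -/
def lR (s : Sys S 3) (b : ℝ) : ℝ := la s 1 {0, 1} b
/-- depth of the sheet of `z = P_2` over `(t, P_0, P_1)` -/
def lz (s : Sys S 3) (b : ℝ) : ℝ := la s 2 {0, 1, 2} b

/-- fullness of `(P_0, P_1)` over the maximal labels of the window `b` -/
def FulB (s : Sys S 3) (b : ℝ) : Prop := ∀ l : Lab S, IsKap s b l → (1 - b) + (1 - lR s b) ≤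
  h (up1 l (TR.dg (TR.cor s.P 0) 1 ⊔ TR.dg (TR.cor s.P 1) 1)) (up1 l s.T)

theorem la_inc {m : ℕ} {s : Sys S m} {i : Fin m} {J : Finset (Fin (m + 1))} {b b' : ℝ} (h0 : 0 ≤ b) (hb : b ≤ b')
    (h1 : b' ≤ 1) (hl : la s i J b' < 1) : la s i J b - b ≤ la s i J b' - b' := by
  have h2 := la_speed (s := s) (i := i) (J := J) h0 hb h1
  rcases min_choice 1 (la s i J b + (b' - b)) with h | h
  · rw [h] at h2
    linarith
  · rw [h] at h2
    linarith

/-- EXISTENCE OF THE BOX at the window `c`, unit `e`, over given labels -/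
theorem exists_cb {s : Sys S 3} {c d : ℝ} (h0 : 0 ≤ c) (h1 : c + d ≤ 1)
    (lt : ∀ b, c ≤ b → b < c + d → lR s b < 1 ∧ lz s b < 1) (full : ∀ b, c ≤ b → b < c + d → FulB s b) {σ A : ℝ}
    (N : Scl σ A) {e : ℝ} (he : 0 < e) (hA : e * A < d) (L : ℕ → Lab S) (hL : ∀ i, DMc s (c + e * N.ν i) (L i)) {tol : ℝ}
    (ht : 0 ≤ tol) : ∃ X : Cb s (lR s) (lz s) N c e tol, X.L = L := by
  have k1 : ∀ i, c ≤ c + e * N.ν i := fun i => by
    have := mul_nonneg he.le (N.nn i)
    linarith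
  have k2 : ∀ i, c + e * N.ν i < c + d := fun i => by
    have := mul_le_mul_of_nonneg_left (N.le i) he.le
    linarith
  have k0 : ∀ i, 0 ≤ c + e * N.ν i := fun i => h0.trans (k1 i)
  have k3 : ∀ i, c + e * N.ν i ≤ 1 := fun i => (k2 i).le.trans h1
  obtain ⟨b⟩ := exists_box s (fun i => c + e * N.ν i) (fun i => lR s (c + e * N.ν i)) (fun i => lz s (c + e * N.ν i)) L
    k0 k3 (fun i => la_le_one _) (fun i => la_nonneg _) (fun i => la_le_one _) (fun i => la_ge_self (k0 i) (k3 i))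
    (fun i j hij => la_inc (k0 i) hij (k3 j) (lt _ (k1 j) (k2 j)).1)
    (fun i j hij => la_inc (k0 i) hij (k3 j) (lt _ (k1 j) (k2 j)).2)
    (fun i => HH_la _) (fun i => HH_la _) hL (fun i => full _ (k1 i) (k2 i))
  refine ⟨{ L := L, eta := fun i => lz s (c + e * N.ν i), b := b, eq := fun i _ => rfl, le0 := ?_, ge0 := ?_ }, rfl⟩
  · show lz s (c + e * N.ν 0) ≤ lz s c
    rw [Cb.q0]
  · show lz s c - tol ≤ lz s (c + e * N.ν 0)
    rw [Cb.q0]
    linarith

end

end Pool.Agent.Helper98.LV
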