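import Pool.Agent.Helper3.H3.Ry
import Pool.Agent.Helper31.NSB.Lev
import Pool.Agent.Helper98.LV.Wb

/-! FULLNESS of `(P_0, P_1)` over the labels of a window from the volume of the base (`VolB`), also on events. -/

set_option autoImplicit false

namespace Pool.Agent.Helper98.LV

open Finset Filter Topology Pool.Agent.Helper69.RK Pool.Agent.Helper31.EC Pool.Agent.Helper31.EC.Sp
open Pool.Agent.Helper40.EL Pool.Agent.Helper42.NS Pool.Agent.Helper52.KP Pool.Agent.Helper52.SL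
open Pool.Agent.Helper80.MX Pool.Agent.Helper3.LF Pool.Agent.Helper3.H3 Pool.Agent.Helper19.S12
open Pool.Agent.Helper39.LIP Pool.Agent.Helper31.NSB
open Pool.Agent.Helper40.NSK (prI selM)
open Pool.Agent.Helper3.SG (Fac)

noncomputable section

variable {S : Sp}

/-- the volume of the base on events of events -/
theorem vol_tow {s : Sys S 3} {c : ℝ} (hV : Pool.Agent.Helper39.LIP.RobV s (prI s 2) 1 c) {T : Sp} (p : Pj T S)
    (E : ∀ k, (T.F k).Ω → Prop) (hE : 0 < ul (T.pr E)) (T' : Sp) (p' : Pj T' (Sp.im p E))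
    (E' : ∀ k, (T'.F k).Ω → Prop) (hE' : 0 < ul (T'.pr E')) :
    Pool.Agent.Helper52.SL.lvolP ((s.im p E hE).im p' E' hE') ((prI (s.im p E hE) 2).im p' E' hE') 1 c ≤
      Pool.Agent.Helper52.SL.lvolP s (prI s 2) 1 c := by
  obtain ⟨W, q, D, hD, -, h2⟩ := exists_tow s p E hE p' E' hE'
  have h3 := ((Vp.vol (selM (2 : Fin 3)) 1).F c).eq_of_fin (s := (s.im p E hE).im p' E' hE') (u := s.im q D hD)
    fun k => h2 k
  rw [Vp.vol_F, Vp.vol_F] at h3
  have h4 := hV W q D hD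
  have h5 : Pool.Agent.Helper52.SL.lvolP ((s.im p E hE).im p' E' hE') (prB (selM (2 : Fin 3)) ((s.im p E hE).im p' E' hE'))
    1 c = Pool.Agent.Helper52.SL.lvolP (s.im q D hD) (prB (selM (2 : Fin 3)) (s.im q D hD)) 1 c := by linarith
  exact h5.le.trans h4

/-- fullness over a label from a bound of the volume -/
theorem full_dm2 {s : Sys S 3} (hst : Pool.Agent.Helper59.EV.ST 1 2) {c L : ℝ} (h0 : 0 ≤ c) (h1 : c < 1)
    (hV : ∀ (T : Sp) (p : Pj T S) (E : ∀ k, (T.F k).Ω → Prop) (hE : 0 < ul (T.pr E)),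
      Pool.Agent.Helper52.SL.lvolP (s.im p E hE) ((prI s 2).im p E hE) 1 c ≤ 2 * (c + L)) {l : Lab S} (hl : DMc s c l) :
    (1 - c) + (1 - L) ≤ h (up1 l (TR.dg (TR.cor s.P 0) 1 ⊔ TR.dg (TR.cor s.P 1) 1)) (up1 l s.T) := by
  have hF : Fac s (prI s 2) := Fac.pr s _ _ _ _
  have ht : Typ (S := l.ovr 1 one_pos) (fun _ _ => True) := Typ_true
  have h2 := full_dmL (D := 1) hF le_rfl hst h0 h1 (Λ := 2 * (c + L)) hV hl (Pj.id (l.ovr 1 one_pos)) (fun _ _ => True)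
    (ul_pr_typ_pos _ ht)
  rw [Pj.id_map, Pj.id_map, h_restL_typ _ ht, prI_P_dg s 2 1] at h2
  have e1 : ((2 : Fin 3).succAbove (1 - (1 : Fin 2))) = 0 := by decide
  have e2 : ((2 : Fin 3).succAbove (1 : Fin 2)) = 1 := by decide
  rw [e1, e2] at h2
  have h3 : (prI s 2).T = s.T := rfl
  rw [h3] at h2
  have h4 : ((2 : ℕ) : ℝ) - 2 * (c + L) / 2 = (1 - c) + (1 - L) := by
    push_cast
    ring
  rw [h4] at h2
  exact h2

/-- FULLNESS over the labels of the window -/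
theorem full_vb0 {s : Sys S 3} (hst : Pool.Agent.Helper59.EV.ST 1 2) {c : ℝ} (h0 : 0 ≤ c) (h1 : c < 1)
    (hV : Pool.Agent.Helper39.LIP.RobV s (prI s 2) 1 c) (hB : VolB s 0 1 2 c) {l : Lab S} (hl : DMc s c l) :
    (1 - c) + (1 - lR s c) ≤ h (up1 l (TR.dg (TR.cor s.P 0) 1 ⊔ TR.dg (TR.cor s.P 1) 1)) (up1 l s.T) :=
  full_dm2 hst h0 h1 (fun T p E hE => (hV T p E hE).trans hB) hl

/-- FULLNESS over the labels of the window, on events -/
theorem full_vb {s : Sys S 3} (hst : Pool.Agent.Helper59.EV.ST 1 2) {c : ℝ} (h0 : 0 ≤ c) (h1 : c < 1)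
    (hV : Pool.Agent.Helper39.LIP.RobV s (prI s 2) 1 c) (hB : VolB s 0 1 2 c) {T : Sp} (p : Pj T S)
    (E : ∀ k, (T.F k).Ω → Prop) (hE : 0 < ul (T.pr E)) {l : Lab (Sp.im p E)} (hl : DMc (s.im p E hE) c l) :
    (1 - c) + (1 - lR s c) ≤
      h (up1 l (TR.dg (TR.cor (s.im p E hE).P 0) 1 ⊔ TR.dg (TR.cor (s.im p E hE).P 1) 1)) (up1 l (s.im p E hE).T) :=
  full_dm2 hst h0 h1 (fun T' p' E' hE' => (vol_tow hV p E hE T' p' E' hE').trans hB) hl

end

end Pool.Agent.Helper98.LV
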