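import Pool.Agent.Helper98.LV.Nw
import Pool.Agent.Helper97.T1.Sqf
import Pool.Agent.Helper80.HCI.Fzz
import Pool.Agent.Helper98.LV.Vb

/-! NO TYPICAL WINDOW: the corner theorem at level 1, case B (`ST_NOWIN` of helper31). -/

set_option autoImplicit false

namespace Pool.Agent.Helper98.LV

open Finset Filter Topology Pool.Agent.Helper69.RK Pool.Agent.Helper31.EC
open Pool.Agent.Helper82.TP Pool.Agent.Helper40.EL Pool.Agent.Helper60.CS Pool.Agent.Helper79.NF
open Pool.Agent.Helper31.NSB Pool.Agent.Helper80.HCI Pool.Agent.Helper52.KP Pool.Agent.Helper98.FR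
open Pool.Agent.Helper71.AGR Pool.Agent.Helper30.UNS Pool.Agent.Helper19.S12 Pool.Agent.Helper91.GR
open Pool.Agent.Helper59.EV (ST)
open Pool.Agent.Helper97.T1 (Adm TCw PT fld_T1 fld_tF fld_tv TCw.icL)

noncomputable section

open Sp QS

variable {S : Sp}

/-- the data of a typical window are admissible for the potential of helper97 -/
theorem adm_win {D : ℕ} (hD : 1 ≤ D) {s : Sys S 3} {c w1 w d : ℝ} (hW : Win D s 0 1 2 c w1 w d)
    (fv : ∀ b : ℝ, 0 ≤ b → b < 1 → VolB s 0 1 2 b → FulB s b) : Adm s (lR s) (lz s) (c - d / 2) (c + d / 2) := by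
  have h2 := hW.cd
  have h3 := hW.cd1
  have h4 := hW.d0
  have hm : ∀ b ∈ Set.Icc (c - d / 2) (c + d / 2), b ∈ Set.Ioo (c - d) (c + d) := fun b hb =>
    ⟨by linarith [hb.1], by linarith [hb.2]⟩
  have hR1 : ∀ b ∈ Set.Icc (c - d / 2) (c + d / 2), lR s b < 1 := fun b hb =>
    (lR_le_eta hD b).trans_lt (hW.lt1 b (hm b hb))
  have hz1 : ∀ b ∈ Set.Icc (c - d / 2) (c + d / 2), lz s b < 1 := fun b hb =>
    (lz_le_eta hD b).trans_lt (hW.lt1 b (hm b hb))
  have k0 : ∀ b ∈ Set.Icc (c - d / 2) (c + d / 2), 0 ≤ b := fun b hb => by linarith [hb.1]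
  have k1 : ∀ b ∈ Set.Icc (c - d / 2) (c + d / 2), b < 1 := fun b hb => by linarith [hb.2]
  exact {
    a0 := by linarith
    b1 := by linarith
    lam1 := fun b _ => la_le_one b
    eta0 := fun b _ => la_nonneg b
    eta1 := fun b _ => la_le_one b
    clam := fun b hb => la_ge_self (k0 b hb) (k1 b hb).le
    slam := fun b hb b' hb' h => la_inc (k0 b hb) h (k1 b' hb').le (hR1 b' hb')
    seta := fun b hb b' hb' h => la_inc (k0 b hb) h (k1 b' hb').le (hz1 b' hb')
    hR := fun b _ => HH_la b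
    hz := fun b _ => HH_la b
    full := fun b hb => fv b (k0 b hb) (k1 b hb) (hW.vol b (hm b hb)) }

/-- **THE CORNER THEOREM at level 1 (case B)**, from the T-level theorem: there are no typical windows -/
theorem nowin (hst : ST 1 2) (top : ST_TOP1 (ST 1 2)) : ST_NOWIN (@Pool.Agent.Helper97.T1.TC) := by
  intro D hD g S s hb c w1 w d hW E hE hE0 hRY hTC
  have hD1 : 1 ≤ D := le_trans (by norm_num) hD
  have hT : TCw s (lR s) (lz s) E c := hTC
  have fv0 : ∀ b : ℝ, 0 ≤ b → b < 1 → VolB s 0 1 2 b → FulB s b := fun b h0 h1 hV l hl =>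
    full_vb0 hst h0 h1 (hb.vol 2 b h0 h1) hV hl.1
  have hLev : Lev s c d (lR s) (lz s) := lev_of hb hW fun T p A hA b h0 h1 hV l hl =>
    full_vb hst h0 h1 (hb.vol 2 b h0 h1) hV p A hA hl
  have h2 := hW.cd
  have h3 := hW.cd1
  have h4 := hW.d0
  have hmem : c ∈ Set.Ioo (c - d) (c + d) := ⟨by linarith, by linarith⟩
  have hl1 : lR s c < 1 := (lR_le_eta hD1 c).trans_lt (hW.lt1 c hmem)
  have he1 : lz s c < 1 := (lz_le_eta hD1 c).trans_lt (hW.lt1 c hmem)
  have hmax : 1 ≤ max w1 w := hW.hw1.trans (le_max_left _ _)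
  have hσ : max w1 w * (1 / max w1 w) = 1 := by
    have : max w1 w ≠ 0 := by linarith
    field_simp
  have hσ1 : 1 / max w1 w ≤ 1 := by
    rw [div_le_one (by linarith)]
    exact hmax
  have hA : (1 : ℝ) < 2 := by norm_num
  refine nowin_of hD hb hW hE hE0 hRY (TCw.icL hT) hst top hLev (fun N e ε X => PT w1 w e ε X) (fun N ε hε =>
    Pool.Agent.Helper97.T1.exists_cb (adm_win hD1 hW fv0) (by linarith) (by constructor <;> linarith) hE hE0 hT hW.dl
      hW.de hA N hε) (fun N Q φ _ _ hP => ?_) (fun N Q φ _ _ _ => ?_)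
  · exact ⟨fld_T1 Q hA hP hl1 he1 hσ1, fld_tF Q hA hP hl1 he1 hσ1, fld_tv Q hA hP hl1 he1 hσ1⟩
  · obtain ⟨k1, k2⟩ := fz_win hD1 hst hb hW hσ Q
    exact ⟨k1, k2⟩

end

end Pool.Agent.Helper98.LV
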