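import Pool.Agent.Helper98.LV.Out
import Pool.Agent.Helper88.NSK.KlO

/-! THE KILL at the sequence of boxes: the fields of the corners at a window contradict the maximality of `eta`. -/

set_option autoImplicit false

namespace Pool.Agent.Helper98.LV

open Finset Filter Topology Pool.Agent.Helper69.RK Pool.Agent.Helper31.EC
open Pool.Agent.Helper82.TP Pool.Agent.Helper40.EL Pool.Agent.Helper60.CS Pool.Agent.Helper79.NF
open Pool.Agent.Helper31.NSB Pool.Agent.Helper80.HCI Pool.Agent.Helper52.KP Pool.Agent.Helper98.FR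
open Pool.Agent.Helper71.AGR Pool.Agent.Helper30.UNS Pool.Agent.Helper88.NSK Pool.Agent.Helper42.NS
open Pool.Agent.Helper89.LX (Hf)

noncomputable section

open Sp QS

variable {S : Sp} {σ A : ℝ} {s : Sys S 3} {lamf etaf : ℝ → ℝ} {c w1 w : ℝ} {N : Scl σ A}

/-- THE KILL: outputs at the spaces of the sequence beat `eta` -/
theorem no_out (hR : RobH s) (Q : Sq s lamf etaf c w1 w N) (hw1 : 1 ≤ w1) (hw : 1 ≤ w)
    (hor : lamf c < etaf c ∨ (lamf c = etaf c ∧ w1 = w)) (hc : c < 1) (hl1 : lamf c < 1) (he1 : etaf c < 1)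
    {et : ℝ → ℝ} (et0 : et c = etaf c) (het : HasDerivAt et w c) {D : ℕ} (hD : 1 ≤ D)
    (hk : ∀ᶠ b in 𝓝 c, ∀ sg : ℝ, Hf s D b sg → sg ≤ et b) (r r' : N.Sc) (v p : ℚ) (hv : 0 < v) (hp : 0 < p)
    (hrr : (r : ℝ) ≤ r') (hws : w1 * (r : ℝ) + w * ((r' : ℝ) - r) < 1) (hwv : w * (r' : ℝ) + v ≤ 1)
    (ho : ∀ η : ℚ, 0 < η → ∀ M : ℕ, ∃ j, M ≤ j ∧
        OutE (Q.rin.inp.H j) (fun i => Q.rin.inp.r10 i j) (fun i => Q.rin.inp.r9 i r j) w1 w D r r' v p η) : False := by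
  have hv' : (0 : ℝ) < v := by exact_mod_cast hv
  have hp' : (0 : ℝ) < p := by exact_mod_cast hp
  have hr0 := N.Sc_nn r.2
  have hr0' := N.Sc_nn r'.2
  obtain ⟨κ, hκ⟩ : ∃ κ, κ = kk D w1 w r r' v := ⟨_, rfl⟩
  have hκ0 : 0 < κ := by rw [hκ]; exact kk_pos hv' hws
  have hvk := vk_pos (w1 := w1) (w := w) (s0 := r) (s1 := r') hv' hws
  obtain ⟨V, hV⟩ : ∃ V, V = vk w1 w r r' v := ⟨_, rfl⟩
  rw [← hV] at hvk
  obtain ⟨η, hη0, hη1⟩ := exists_rat_btwn hκ0
  have hη0' : 0 < η := by exact_mod_cast hη0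
  -- the increments of `et`
  obtain ⟨e3, he3, g3⟩ := incr_e het hr0' (show 0 < V / 8 by linarith)
  rw [Metric.eventually_nhds_iff] at hk
  obtain ⟨d, hd, hk⟩ := hk
  -- the orientation
  have hle : lamf c ≤ etaf c := by
    rcases hor with h | h
    · exact h.le
    · exact h.1.le
  obtain ⟨e4, he4, g4⟩ : ∃ e4 : ℝ, 0 < e4 ∧ ∀ e : ℝ, 0 < e → e ≤ e4 → lamf c + w1 * r * e ≤ etaf c + w * r * e := by
    rcases hor with h | h
    · refine ⟨(etaf c - lamf c) / (w1 * r + 1), div_pos (by linarith) (by positivity), fun e he hee => ?_⟩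
      rw [le_div_iff₀ (by positivity)] at hee
      have : 0 ≤ w * r * e := by positivity
      nlinarith
    · exact ⟨1, one_pos, fun e he _ => by rw [h.1, h.2]⟩
  have hev := ((Q.small hl1 he1 (min (min e3 e4) (min (1 - c) (min (1 - lamf c) (d / (2 * ((r' : ℝ) + 1))))))
    (lt_min (lt_min he3 he4) (lt_min (by linarith) (lt_min (by linarith) (by positivity))))).and
    (Q.ε0.eventually (gt_mem_nhds (show (0 : ℝ) < min κ (V / 8) from lt_min hκ0 (by linarith)))))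
  obtain ⟨M, hM⟩ := eventually_atTop.1 hev
  obtain ⟨j, hj, out⟩ := ho η hη0' M
  obtain ⟨⟨k0, k2, k3⟩, kε⟩ := hM j hj
  have k4 := (k0.trans (min_le_left _ _)).trans (min_le_left _ _)
  have k5 := (k0.trans (min_le_left _ _)).trans (min_le_right _ _)
  have k6 := (k0.trans (min_le_right _ _)).trans (min_le_left _ _)
  have k7 := (k0.trans (min_le_right _ _)).trans (min_le_right _ _)
  have k8 := k7.trans (min_le_right _ _)
  have k7' := k7.trans (min_le_left _ _)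
  have l1 := kε.le.trans (min_le_left _ _)
  have l2 := kε.le.trans (min_le_right _ _)
  have he := Q.he j
  have hεp := Q.hε j
  have hle' := mul_pos hεp he
  have hκe := mul_pos hκ0 he
  have hεκ : Q.ε j * Q.e j ≤ κ * Q.e j := mul_le_mul_of_nonneg_right l1 he.le
  have hlam := Q.lam0 j
  have hq0 : (Q.X j).b.bd.q 0 = c := (Q.wnd j).q0
  have hs0e : (r : ℝ) * Q.e j ≤ Q.e j := by
    have h1 : w1 * (r : ℝ) < 1 := by
      have : 0 ≤ w * ((r' : ℝ) - r) := mul_nonneg (by linarith) (by linarith)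
      linarith
    have h2 : 1 * (r : ℝ) ≤ w1 * r := mul_le_mul_of_nonneg_right hw1 hr0
    nlinarith
  have hw1e : w1 * (r : ℝ) * Q.e j ≤ Q.e j := by
    have h1 : w1 * (r : ℝ) < 1 := by
      have : 0 ≤ w * ((r' : ℝ) - r) := mul_nonneg (by linarith) (by linarith)
      linarith
    nlinarith
  have h4 := g4 (Q.e j) he k5
  have ho := ofSys_bx (Q.X j).b
  have hfin := kill_fin hR (Q.X j).b (i0 := 0) (i2 := N.ix r') he (Q.q_ix0 j r'.2)
    (ηn := lvt etaf c (Q.ε j) (Q.e j)) (Cb.lvt_le (Q.hε j) (Q.he j) (Q.X j)) hD hκ hv' hr0 hrr hw1 hw hws hwv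
    (by
      show (Q.X j).b.bd.q 0 + _ ≤ _
      rw [hq0]
      linarith)
    (by
      show (Q.X j).b.bd.lam 0 + _ ≤ _
      rw [hlam]
      linarith)
    k3
    (by
      show (Q.X j).b.bd.lam 0 + _ ≤ _
      rw [hlam]
      unfold lvt
      linarith)
    (by
      show (Q.X j).b.bd.lam 0 ≤ _
      rw [hlam]
      unfold lvt
      linarith)
    hp' hη1.le (H := Q.H j) (f := frOf (Q.g j)) (E0 := Q.rin.E j) (Q.rin.hE j) rfl rfl rfl rfl
    (fun i => Q.rin.r10 i j) (fun i => Q.rin.r10_mk i j) (fun i => Q.g j i r) (fun i => frOf_f9 (Q.g j) i r)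
    (fun i => Q.hg i r j) (Id_anti (by linarith) ((Q.fre j).ft r r.2).1) (Id_anti (by linarith) ((Q.fre j).fy r r.2).1)
    (Id_anti (by linarith) ((Q.fre j).frR r r.2)) ?_ ?_ ?_ ?_ out
  · -- contradiction
    have e1 : c + Q.e j * N.ν (N.ix r') = c + (r' : ℝ) * Q.e j := by rw [N.ix_eq r'.2, mul_comm]
    have h6 : etaf c - Q.ε j * Q.e j + (w * r' + V / 2) * Q.e j ≤ et (c + (r' : ℝ) * Q.e j) := by
      have h7 := hk (y := c + (r' : ℝ) * Q.e j) (by
        rw [Real.dist_eq, add_sub_cancel_left, abs_of_nonneg (by positivity)]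
        rw [le_div_iff₀ (by positivity)] at k8
        nlinarith) (lvt etaf c (Q.ε j) (Q.e j) + (w * r' + vk w1 w r r' v / 2) * Q.e j) (by
          rw [← e1]
          exact hfin)
      rw [← hV] at h7
      exact h7
    have h8 := (abs_le.1 (g3 (Q.e j) he k4 r' (by rw [abs_of_nonneg hr0']))).2
    rw [et0] at h8
    have h9 : Q.ε j * Q.e j ≤ V / 8 * Q.e j := mul_le_mul_of_nonneg_right l2 he.le
    have h10 : 0 < V * Q.e j := mul_pos hvk he
    nlinarith
  · refine Eventually.of_forall fun k ω ω' _ _ h _ => Quotient.sound ?_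
    exact Q.nest_ix j r.2 r'.2 hrr k h
  · exact Eventually.of_forall fun k ω ω' _ _ h _ => Quotient.sound h
  · have h7 := nul_of_io (Q.X j).b he (Q.q_ix0 j r'.2) (V := (Q.H j).VA) (Q.rin.bA.bdd j)
      (A := Inf.sup (Inf.sup (s.Ia 1) (s.Ix 1)) (s.It ((Q.X j).b.bd.q (N.ix r')))) ?_
    · exact h7
    · rw [cl_A]
      have h8 := ho.L_up 0 he (Cb.lvt_le (Q.hε j) (Q.he j) (Q.X j)) N.ix (by rw [hlam]; exact k2) k3
      have h9 : io (Q.H j).VA = (Q.H j).L := (Q.fre j).iA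
      show io (Q.H j).VA ≤ _
      rw [h9]
      refine h8.trans ?_
      exact ((Q.X j).b.M.lab 0).upL_mono _ he le_sup_left
  · have h7 := nul_of_io (Q.X j).b he (Q.q_ix0 j r'.2) (V := (Q.H j).VB) (Q.rin.bB.bdd j)
      (A := Inf.sup (s.IP 1) (s.It 1)) ?_
    · exact h7
    · rw [cl_B]
      have h8 := ho.B_up 0 he (Cb.lvt_le (Q.hε j) (Q.he j) (Q.X j)) N.ix (by rw [hlam]; exact k2) k3
      have h9 : io (Q.H j).VB = (Q.H j).B := (Q.fre j).iB
      show io (Q.H j).VB ≤ _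
      rw [h9]
      exact h8

/-- **NO TYPICAL WINDOW**: the fields of the corners and the maximality of `eta` (degrees `1..4`) are contradictory -/
theorem no_fld {st : Prop} (top : ST_TOP1 st) (hst : st) (hR : RobH s) (Q : Sq s lamf etaf c w1 w N) {g ρ : ℝ}
    (hF : Fld Q g ρ) (hg : 0 < g) (hρ : 0 < ρ) (hw1 : 1 ≤ w1) (hw : 1 ≤ w) (hσ : max w1 w * σ = 1)
    (hor : lamf c < etaf c ∨ (lamf c = etaf c ∧ w1 = w)) (hc : c < 1) (hl1 : lamf c < 1) (he1 : etaf c < 1)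
    {et : ℝ → ℝ} (et0 : et c = etaf c) (het : HasDerivAt et w c)
    (hk : ∀ᶠ b in 𝓝 c, ∀ D : ℕ, 1 ≤ D → D ≤ 4 → ∀ sg : ℝ, Hf s D b sg → sg ≤ et b) : False := by
  obtain ⟨D, hD1, hD4, r, r', v, p, hv, hp, hrr, hws, hwv, ho⟩ := exists_out top hst Q hF hg hρ hw1 hw hσ
  exact no_out hR Q hw1 hw hor hc hl1 he1 et0 het hD1 (hk.mono fun b hb => hb D hD1 hD4) r r' v p hv hp hrr hws hwv ho

end

end Pool.Agent.Helper98.LV
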