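import Pool.Agent.Helper40.EL.W1
import Mathlib.Analysis.Calculus.Monotone

/-! TYPICAL WINDOWS: the information of the maximal label is Lipschitz at almost every `c`. -/

set_option autoImplicit false

namespace Pool.Agent.Helper98.LV

open Finset Filter Topology MeasureTheory Set Pool.Agent.Helper69.RK Pool.Agent.Helper31.EC Pool.Agent.Helper40.EL

noncomputable section

variable {S : Sp} {m : ℕ}

theorem ic_ae (s : Sys S m) : ∀ᵐ c : ℝ, c ∈ Ioo (0 : ℝ) 1 →
    ∃ L : ℝ, 0 ≤ L ∧ ∀ᶠ x in 𝓝 c, |ic s x - ic s c| ≤ L * |x - c| := by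
  have hm : MonotoneOn (ic s) (Icc (0 : ℝ) 1) := fun a ha b hb hab => ic_mono ha.1 hab hb.2
  have h1 := hm.ae_differentiableWithinAt measurableSet_Icc
  rw [ae_restrict_iff' measurableSet_Icc] at h1
  filter_upwards [h1] with c hc h
  have h2 : DifferentiableAt ℝ (ic s) c := (hc ⟨h.1.le, h.2.le⟩).differentiableAt (Icc_mem_nhds h.1 h.2)
  have h3 := h2.isBigO_sub
  obtain ⟨L, hL, h4⟩ := h3.exists_nonneg
  refine ⟨L, hL, ?_⟩
  filter_upwards [h4.bound] with x hx
  simpa [Real.norm_eq_abs] using hx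

/-- the increment of the information at the scales `E j` -/
theorem ic_inc {s : Sys S m} {c L : ℝ} (hL : 0 ≤ L) (h : ∀ᶠ x in 𝓝 c, |ic s x - ic s c| ≤ L * |x - c|) {σ : ℝ}
    (hσ : 0 ≤ σ) {E : ℕ → ℝ} (hE : ∀ j, 0 < E j) (hE0 : Tendsto E atTop (𝓝 0)) :
    ∃ C : ℝ, ∀ᶠ j in atTop, (ic s (c + E j * σ) + (c + E j * σ)) - (ic s c + c) ≤ C * E j := by
  refine ⟨(L + 1) * σ, ?_⟩
  have h1 : Tendsto (fun j => c + E j * σ) atTop (𝓝 c) := by
    have h2 := (hE0.mul_const σ).const_add c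
    rwa [zero_mul, add_zero] at h2
  filter_upwards [h1.eventually h] with j hj
  have h2 := (abs_le.1 hj).2
  have h3 : |c + E j * σ - c| = E j * σ := by
    rw [add_sub_cancel_left, abs_of_nonneg (mul_nonneg (hE j).le hσ)]
  rw [h3] at h2
  nlinarith

end

end Pool.Agent.Helper98.LV
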