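import Pool.Agent.Helper98.LV.Kil
import Pool.Agent.Helper98.LV.Wb
import Pool.Agent.Helper98.LV.Tc
import Pool.Agent.Helper31.NSB.Lev
import Pool.Agent.Helper59.GR.Shf
import Pool.Agent.Helper42.NS.Deg

/-! NO TYPICAL WINDOW, from the independence of the direction and the fullness of the projections at the corners. -/

set_option autoImplicit false

namespace Pool.Agent.Helper98.LV

open Finset Filter Topology Pool.Agent.Helper69.RK Pool.Agent.Helper31.EC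
open Pool.Agent.Helper82.TP Pool.Agent.Helper40.EL Pool.Agent.Helper60.CS Pool.Agent.Helper79.NF
open Pool.Agent.Helper31.NSB Pool.Agent.Helper80.HCI Pool.Agent.Helper52.KP Pool.Agent.Helper98.FR
open Pool.Agent.Helper71.AGR Pool.Agent.Helper30.UNS Pool.Agent.Helper19.S12 Pool.Agent.Helper91.GR
open Pool.Agent.Helper3.LF (eta le_eta)
open Pool.Agent.Helper89.LX (Hf)

noncomputable section

open Sp QS

/-- the fields of the sequence which come from typicality: independence of the direction -/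
structure TT {S : Sp} {σ A : ℝ} {s : Sys S 3} {lamf etaf : ℝ → ℝ} {c w1 w : ℝ} {N : Scl σ A}
    (Q : Sq s lamf etaf c w1 w N) : Prop where
  t1 : ∀ ε : ℝ, 0 < ε → ∀ᶠ j in atTop, ∀ r ∈ N.Sc, I (dg (Q.H j).x 1) ((Q.rin.inp.H j).κ r ⊔ (Q.H j).B) ⊥ ≤ ε
  tF : w1 = 1 → ∀ ε : ℝ, 0 < ε → ∀ᶠ j in atTop, ∀ r ∈ N.Sc,
    I (dg (Q.H j).x 1 ⊔ dg (Q.H j).F 1) ((Q.rin.inp.H j).κ r ⊔ (Q.H j).B) ⊥ ≤ ε
  tv : w = 1 → 1 < w1 → ∀ ε : ℝ, 0 < ε → ∀ᶠ j in atTop, ∀ r ∈ N.Sc,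
    I (dg (Q.H j).x 1 ⊔ dg (Q.H j).v 1) ((Q.rin.inp.H j).κ r ⊔ (Q.H j).B) ⊥ ≤ ε

/-- fullness of the projections at the sequence -/
structure ZZ {S : Sp} {σ A : ℝ} {s : Sys S 3} {lamf etaf : ℝ → ℝ} {c w1 w : ℝ} {N : Scl σ A}
    (Q : Sq s lamf etaf c w1 w N) : Prop where
  fz : ∀ r r' : N.Sc, ∀ p τ : ℚ, 0 < p → 0 < τ → ∃ η : ℚ, 0 < η ∧ ∀ᶠ j in atTop, Q.rin.inp.fzS2 w1 w false r r' τ p η j
  fz' : w < w1 → ∀ r r' : N.Sc, ∀ p τ : ℚ, 0 < p → 0 < τ → ∃ η : ℚ, 0 < η ∧ ∀ᶠ j in atTop,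
    Q.rin.inp.fzS2 w1 w true r r' τ p η j

variable {S : Sp}

theorem lR_le_eta {s : Sys S 3} {D : ℕ} (hD : 1 ≤ D) (b : ℝ) : lR s b ≤ eta s D b :=
  le_eta (Pool.Agent.Helper59.GR.Hf_of_SJD hD (by decide) (HH_la b))

theorem lz_le_eta {s : Sys S 3} {D : ℕ} (hD : 1 ≤ D) (b : ℝ) : lz s b ≤ eta s D b :=
  le_eta (Pool.Agent.Helper59.GR.Hf_of_SJD hD (by decide) (HH_la b))

theorem robH_of {g : ℝ} {s : Sys S 3} (hb : Rbb g s) : Pool.Agent.Helper42.NS.RobH s :=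
  fun D T p E hE c σ => hb.gd D () T p E hE c σ

/-- the data of level 1 near a typical window, from fullness -/
theorem lev_of {D : ℕ} {g : ℝ} {s : Sys S 3} (hb : Rbb g s) {c w1 w d : ℝ} (hW : Win D s 0 1 2 c w1 w d)
    (fv : ∀ (T : Sp) (p : Pj T S) (E : ∀ k, (T.F k).Ω → Prop) (hE : 0 < ul (T.pr E)) (b : ℝ), 0 ≤ b → b < 1 →
      VolB s 0 1 2 b → ∀ l : Lab (Sp.im p E), DMc (s.im p E hE) b l → (1 - b) + (1 - lR s b) ≤
        h (up1 l (TR.dg (TR.cor (s.im p E hE).P 0) 1 ⊔ TR.dg (TR.cor (s.im p E hE).P 1) 1)) (up1 l (s.im p E hE).T)) :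
    Lev s c d (lR s) (lz s) where
  rp := hb.P
  hR := fun T p E hE b _ => by
    have h1 : la (s.im p E hE) 1 {0, 1} b = la s 1 {0, 1} b := la_im (hb.sj 1 {0, 1}) (q := ()) rfl p E hE b
    have h2 := HH_la (s := s.im p E hE) (i := 1) (J := {0, 1}) b
    rw [h1] at h2
    exact h2
  hz := fun T p E hE b _ => by
    have h1 : la (s.im p E hE) 2 {0, 1, 2} b = la s 2 {0, 1, 2} b := la_im (hb.sj 2 {0, 1, 2}) (q := ()) rfl p E hE b
    have h2 := HH_la (s := s.im p E hE) (i := 2) (J := {0, 1, 2}) b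
    rw [h1] at h2
    exact h2
  full := fun T p E hE b hbc l hl => by
    have h1 := abs_lt.1 hbc
    have h2 := hW.cd
    have h3 := hW.cd1
    exact fv T p E hE b (by linarith) (by linarith) (hW.vol b ⟨by linarith, by linarith⟩) l hl.1
  ql := fun b hbc => by
    have h1 := abs_lt.1 hbc
    have h2 := hW.cd
    have h3 := hW.cd1
    exact ⟨la_ge_self (by linarith) (by linarith), la_le_one b⟩

/-- boxes at a typical window, over given labels -/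
theorem exists_cb_win {D : ℕ} (hD : 1 ≤ D) {s : Sys S 3} {c w1 w d : ℝ} (hW : Win D s 0 1 2 c w1 w d)
    (fv : ∀ b : ℝ, 0 ≤ b → b < 1 → VolB s 0 1 2 b → FulB s b) {σ A : ℝ} (N : Scl σ A) {e : ℝ} (he : 0 < e)
    (hA : e * A < d) (L : ℕ → Lab S) (hL : ∀ i, DMc s (c + e * N.ν i) (L i)) {tol : ℝ} (ht : 0 ≤ tol) :
    ∃ X : Cb s (lR s) (lz s) N c e tol, X.L = L := by
  have h2 := hW.cd
  have h3 := hW.cd1
  have h4 := hW.d0
  refine exists_cb (d := d) (by linarith) (by linarith) (fun b hb hb' => ?_) (fun b hb hb' => ?_) N he hA L hL ht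
  · have h5 := hW.lt1 b ⟨by linarith, hb'⟩
    exact ⟨(lR_le_eta hD b).trans_lt h5, (lz_le_eta hD b).trans_lt h5⟩
  · exact fv b (by linarith) (by linarith) (hW.vol b ⟨by linarith, hb'⟩)

/-- NO TYPICAL WINDOW from: the data of level 1 (`Lev` of helper30, fullness), boxes with a property `P`, independence of
the direction and fullness of the projections for sequences of boxes with `P` -/
theorem nowin_of {D : ℕ} (hD : 4 ≤ D) {g : ℝ} {s : Sys S 3} (hb : Rbb g s) {c w1 w d : ℝ} (hW : Win D s 0 1 2 c w1 w d)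
    {E : ℕ → ℝ} (hE : ∀ j, 0 < E j) (hE0 : Tendsto E atTop (𝓝 0)) (hRY : RYs s 0 E)
    (hic : ∃ L : ℝ, 0 ≤ L ∧ ∀ᶠ x in 𝓝 c, |Helper40.EL.ic s x - Helper40.EL.ic s c| ≤ L * |x - c|)
    {st : Prop} (hst : st) (top : ST_TOP1 st) (hLev : Lev s c d (lR s) (lz s))
    (P : ∀ (N : Scl (1 / max w1 w) 2) (e ε : ℝ), Cb s (lR s) (lz s) N c e (ε * e / 8) → Prop)
    (hP : ∀ (N : Scl (1 / max w1 w) 2) (ε : ℝ), 0 < ε → ∀ᶠ j in atTop, ∃ X, P N (E j) ε X)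
    (hT : ∀ (N : Scl (1 / max w1 w) 2) (Q : Sq s (lR s) (lz s) c w1 w N) (φ : ℕ → ℕ), Tendsto φ atTop atTop →
      (∀ j, Q.e j = E (φ j)) → (∀ j, P N (Q.e j) (Q.ε j) (Q.X j)) → TT Q)
    (hZ : ∀ (N : Scl (1 / max w1 w) 2) (Q : Sq s (lR s) (lz s) c w1 w N) (φ : ℕ → ℕ), Tendsto φ atTop atTop →
      (∀ j, Q.e j = E (φ j)) → (∀ j, P N (Q.e j) (Q.ε j) (Q.X j)) → ZZ Q) : False := by
  have hD1 : 1 ≤ D := le_trans (by norm_num) hD
  have hw1 := hW.hw1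
  have hw := hW.hw
  have hd := hW.d0
  have hc0 : 0 < c := by linarith [hW.cd]
  have hc1 : c < 1 := by linarith [hW.cd1]
  have hmem : c ∈ Set.Ioo (c - d) (c + d) := ⟨by linarith, by linarith⟩
  have hl : HasDerivAt (lR s) w1 c := hW.dl
  have hη : HasDerivAt (lz s) w c := hW.de
  have hord : lR s c ≤ lz s c := hW.ord
  have htop : lz s c = eta s D c := hW.top
  have hlz1 : lz s c < 1 := by rw [htop]; exact hW.lt1 c hmem
  have hlR1 : lR s c < 1 := hord.trans_lt hlz1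
  have hor : lR s c < lz s c ∨ (lR s c = lz s c ∧ w1 = w) := by
    rcases hord.lt_or_eq with h | h
    · exact Or.inl h
    · exact Or.inr ⟨h, hW.eq h⟩
  have h0 : 0 < lz s c := hc0.trans_le (la_ge_self hc0.le hc1.le)
  have hmax : 1 ≤ max w1 w := hw1.trans (le_max_left _ _)
  have hσ : max w1 w * (1 / max w1 w) = 1 := by field_simp
  have hσ0 : 0 < 1 / max w1 w := by positivity
  have hσ1 : 1 / max w1 w ≤ 1 := by
    rw [div_le_one (by linarith)]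
    exact hmax
  obtain ⟨N⟩ := exists_scl hσ0 (hσ1.trans (by norm_num : (1 : ℝ) ≤ 2))
  obtain ⟨L, hL0, hL⟩ := hic
  obtain ⟨Q, hQ, φ, hφ, hφe⟩ := exists_sq hb.I hl hη hw1 hw hσ N E hE hE0 (ic_inc hL0 hL hσ0.le hE hE0) (P N) (hP N)
  obtain ⟨g', hg', hR⟩ := hRY
  have hRQ : Ryx s g' Q.e := by
    have h1 : Ryx s g' (fun j => E (φ j)) := Ryx.comp hR hφ
    have h2 : Q.e = fun j => E (φ j) := funext hφe
    rw [h2]
    exact h1
  obtain ⟨a, ha, y', hy', hdy⟩ := hW.dfc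
  rw [← htop] at hdy
  have hTT := hT N Q φ hφ hφe hQ
  have hZZ := hZ N Q φ hφ hφe hQ
  have hF : Fld Q g' a :=
    { cc := Q.cce hl hc1 hlR1 hlz1 hσ1 hRQ hTT.t1
      un := Q.unbe hLev.nch hd hl hη hw1 hw hor hdy h0 hlz1 hc1 hlR1 hσ hy'
      fz := hZZ.fz
      fz' := hZZ.fz'
      tF := hTT.tF
      tv := hTT.tv }
  refine no_fld top hst (robH_of hb) Q hF hg' ha hw1 hw hσ hor hc1 hlR1 hlz1 (et := fun b => eta s D b) htop.symm hW.dD ?_
  exact Eventually.of_forall fun b D' hD1' hD4' sg hs => le_eta (Pool.Agent.Helper42.NS.Hf_deg (hD4'.trans hD) hs)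

end

end Pool.Agent.Helper98.LV
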