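import Pool.Agent.Helper98.LV.Un
import Pool.Agent.Helper80.HCI.Fzf
import Pool.Agent.Helper31.NSB.Top

/-! THE OUTPUT of the T-level theorem at the spaces of the sequence of boxes. -/

set_option autoImplicit false

namespace Pool.Agent.Helper98.LV

open Finset Filter Topology Pool.Agent.Helper69.RK Pool.Agent.Helper31.EC
open Pool.Agent.Helper82.TP Pool.Agent.Helper40.EL Pool.Agent.Helper60.CS Pool.Agent.Helper79.NF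
open Pool.Agent.Helper31.NSB Pool.Agent.Helper80.HCI Pool.Agent.Helper52.KP Pool.Agent.Helper98.FR
open Pool.Agent.Helper71.AGR Pool.Agent.Helper30.UNS

noncomputable section

open Sp QS

/-- T-LEVEL THEOREM of case B, with `1 ≤ D` -/
def ST_TOP1 (st : Prop) : Prop := st → ∀ (S : Sp) (H : RD S) (f : FR S) (w1 w ρ σ : ℝ) (Sc : Set ℝ),
  C0 H f w1 w Sc → UnA H w ρ Sc → 0 < ρ → Fz H f w1 w Sc → (w < w1 → Fz (swp H) (swf f) w w1 Sc) →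
  max w1 w * σ = 1 → (∀ s ∈ Sc, s ≤ σ) → σ ∈ Sc → Dns Sc σ →
  (w1 = 1 → ∀ s ∈ Sc, I (dg H.x 1 ⊔ dg H.F 1) (H.κ s ⊔ H.B) ⊥ = 0) →
  (w = 1 → 1 < w1 → ∀ s ∈ Sc, I (dg H.x 1 ⊔ dg H.v 1) (H.κ s ⊔ H.B) ⊥ = 0) →
  ∃ D : ℕ, 1 ≤ D ∧ D ≤ 4 ∧ ∃ s0 ∈ Sc, ∃ s ∈ Sc, w1 * s0 + w * (s - s0) < 1 ∧ ∃ v : ℝ, OutL H f w1 w D s0 s v

/-- the T-level theorem from its rows, with `1 ≤ D` -/
theorem st_top1 {st : Prop} (iso : ST_ISO) (sw : ST_SWAP) (us : ST_UNSWAP) (nb : ST_NB st) (zm : ST_ZOOM) (hs : ST_HEIS)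
    (nsh : ST_NSH) (f1 : ST_FLAT1) (f2 : ST_FLAT2) : ST_TOP1 st := by
  intro hst S H f w1 w ρ σ Sc c0 una hρ fz fzs hσ hle hσS hd i1 i2
  have hw1 := c0.hw1
  have hw := c0.hw
  have hmax : 0 < max w1 w := lt_of_lt_of_le one_pos (hw1.trans (le_max_left _ _))
  have hσ0 : 0 < σ := by
    by_contra h
    push Not at h
    have := mul_nonpos_of_nonneg_of_nonpos hmax.le h
    linarith
  rcases hw1.eq_or_lt with h1 | h1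
  · -- `w1 = 1`
    subst h1
    rw [max_eq_right hw] at hσ
    have cc := iso S H f 1 w ρ σ Sc c0 una hρ hw hσ hle hd
    obtain ⟨s, hs1, v, hv⟩ := f1 S H f w ρ σ Sc cc (i1 rfl) hσ0 hσ.le hle hσS hd
    exact ⟨4, by norm_num, le_rfl, s, hs1, s, hs1, by nlinarith [hv.1, hv.2.2.1, c0.nn s hs1], v, hv⟩
  rcases hw.eq_or_lt with h2 | h2
  · -- `w = 1 < w1`
    subst h2
    rw [max_eq_left hw1] at hσ
    obtain ⟨s0, hs0, s, hs1, hlt, v, hv⟩ := f2 S H f w1 ρ σ Sc c0 una hρ h1 fz (i2 rfl h1) hσ hle hσS hd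
    exact ⟨1, le_rfl, by norm_num, s0, hs0, s, hs1, by nlinarith [hle s hs1, c0.nn s0 hs0], v, hv⟩
  rcases le_or_gt w1 w with h3 | h3
  · -- `1 < w1 ≤ w`
    rw [max_eq_right h3] at hσ
    have cc := iso S H f w1 w ρ σ Sc c0 una hρ h3 hσ hle hd
    obtain ⟨s, hs1, v, hv⟩ := top_main hst nb zm hs nsh S H f w1 w ρ σ Sc cc fz h1 h3 hσ hle hd
    exact ⟨1, le_rfl, by norm_num, s, hs1, s, hs1, by nlinarith [hv.1, hv.2.2.1, c0.nn s hs1], v, hv⟩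
  · -- `1 < w < w1`
    rw [max_eq_left h3.le] at hσ
    obtain ⟨ρ', hρ', cc⟩ := sw S H f w1 w ρ σ Sc c0 una hρ h3 fz hσ hle hd
    obtain ⟨s, hs1, v, hv⟩ := top_main hst nb zm hs nsh S (swp H) (swf f) w w1 ρ' σ Sc cc (fzs h3) h2 h3.le hσ hle hd
    obtain ⟨v', hv'⟩ := us S H f w1 w ρ' Sc c0 h3 cc s hs1 v hv
    exact ⟨1, le_rfl, by norm_num, s, hs1, s, hs1, by nlinarith [hv.1, hv.2.2.1, c0.nn s hs1], v', hv'⟩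

/-- the fields of the sequence of corners: all inputs of the T-level theorem -/
structure Fld {S : Sp} {σ A : ℝ} {s : Sys S 3} {lamf etaf : ℝ → ℝ} {c w1 w : ℝ} {N : Scl σ A}
    (Q : Sq s lamf etaf c w1 w N) (g ρ : ℝ) : Prop where
  cc : ∀ ε : ℝ, 0 < ε → ∀ᶠ j in atTop, CCe (Q.rin.inp.H j) (Q.rin.inp.f j) w1 w g N.Sc ε
  un : ∀ ε : ℝ, 0 < ε → ∀ᶠ j in atTop, UnBe (Q.rin.inp.H j) (w * σ) ρ ε
  fz : ∀ r r' : N.Sc, ∀ p τ : ℚ, 0 < p → 0 < τ → ∃ η : ℚ, 0 < η ∧ ∀ᶠ j in atTop, Q.rin.inp.fzS2 w1 w false r r' τ p η j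
  fz' : w < w1 → ∀ r r' : N.Sc, ∀ p τ : ℚ, 0 < p → 0 < τ → ∃ η : ℚ, 0 < η ∧ ∀ᶠ j in atTop,
    Q.rin.inp.fzS2 w1 w true r r' τ p η j
  tF : w1 = 1 → ∀ ε : ℝ, 0 < ε → ∀ᶠ j in atTop, ∀ r ∈ N.Sc,
    I (dg (Q.H j).x 1 ⊔ dg (Q.H j).F 1) ((Q.rin.inp.H j).κ r ⊔ (Q.H j).B) ⊥ ≤ ε
  tv : w = 1 → 1 < w1 → ∀ ε : ℝ, 0 < ε → ∀ᶠ j in atTop, ∀ r ∈ N.Sc,
    I (dg (Q.H j).x 1 ⊔ dg (Q.H j).v 1) ((Q.rin.inp.H j).κ r ⊔ (Q.H j).B) ⊥ ≤ ε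

variable {S : Sp} {σ A : ℝ} {s : Sys S 3} {lamf etaf : ℝ → ℝ} {c w1 w : ℝ} {N : Scl σ A}

/-- THE OUTPUT at the spaces of the sequence -/
theorem exists_out {st : Prop} (top : ST_TOP1 st) (hst : st) (Q : Sq s lamf etaf c w1 w N) {g ρ : ℝ} (hF : Fld Q g ρ)
    (hg : 0 < g) (hρ : 0 < ρ) (hw1 : 1 ≤ w1) (hw : 1 ≤ w) (hσ : max w1 w * σ = 1) :
    ∃ D : ℕ, 1 ≤ D ∧ D ≤ 4 ∧ ∃ r r' : N.Sc, ∃ v p : ℚ, 0 < v ∧ 0 < p ∧ (r : ℝ) ≤ r' ∧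
      w1 * (r : ℝ) + w * ((r' : ℝ) - r) < 1 ∧ w * (r' : ℝ) + v ≤ 1 ∧
      ∀ η : ℚ, 0 < η → ∀ M : ℕ, ∃ j, M ≤ j ∧
        OutE (Q.rin.inp.H j) (fun i => Q.rin.inp.r10 i j) (fun i => Q.rin.inp.r9 i r j) w1 w D r r' v p η := by
  have hσ0 := N.σ_nn
  have hwσ : w * σ ≤ 1 := by
    rw [← hσ]
    exact mul_le_mul_of_nonneg_right (le_max_right _ _) hσ0
  have hσ1 : σ ≤ 1 := by
    have : 1 * σ ≤ w * σ := mul_le_mul_of_nonneg_right hw hσ0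
    linarith
  obtain ⟨δ1, hδ1, -, hc1⟩ := exists_null (P := fun j ε => CCe (Q.rin.inp.H j) (Q.rin.inp.f j) w1 w g N.Sc ε)
    (fun j a b hab h => cce_mono h hab) hF.cc
  obtain ⟨δ2, hδ2, -, hc2⟩ := exists_null (P := fun j ε => UnBe (Q.rin.inp.H j) (w * σ) ρ ε)
    (fun j a b hab h => unBe_mono h hab) hF.un
  obtain ⟨s, hE, hl⟩ := exists_Dg Q.rin.inp (Λ := N.Sc) (fun r => (r : ℝ)) (Q.rin.inp.fzL w1 w) (Q.rin.inp.fzL_ev w1 w)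
    (Q.rin.inp.olL w1 w)
  have c0 : C0 s.HT s.fT w1 w N.Sc := s.c0 hδ1 hc1 (fun r hr => ⟨⟨r, hr⟩, rfl⟩) N.zero_mem (fun r hr => N.Sc_nn hr)
    (fun r hr => (N.Sc_le hr).trans hσ1) hg hw1 hw
  have una' : UnA s.HT w ρ N.Sc := una s (by linarith) hwσ (fun r hr => N.Sc_le hr) hδ2 hc2
  have fz : Fz s.HT s.fT w1 w N.Sc := s.fz hE (fun r hr => N.Sc_nn hr) (by linarith) hF.fz
  have fz' : w < w1 → Fz (swp s.HT) (swf s.fT) w w1 N.Sc := fun h =>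
    s.fz_swp hE (fun r hr => N.Sc_nn hr) (by linarith) (hF.fz' h)
  have tF : w1 = 1 → ∀ r ∈ N.Sc, I (dg s.HT.x 1 ⊔ dg s.HT.F 1) (s.HT.κ r ⊔ s.HT.B) ⊥ = 0 := by
    intro h r hr
    obtain ⟨δ, hδ, -, h1⟩ := exists_null (P := fun j ε => ∀ r ∈ N.Sc,
      I (dg (Q.H j).x 1 ⊔ dg (Q.H j).F 1) ((Q.rin.inp.H j).κ r ⊔ (Q.H j).B) ⊥ ≤ ε)
      (fun j a b hab h r hr => (h r hr).trans hab) (hF.tF h)
    exact (s.rx.dg1.sup s.rF.dg1).I_zero ((s.rK hr).sup s.rB) (Rp.bot s.toUni) hδ (h1.mono fun j hj => hj r hr)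
  have tv : w = 1 → 1 < w1 → ∀ r ∈ N.Sc, I (dg s.HT.x 1 ⊔ dg s.HT.v 1) (s.HT.κ r ⊔ s.HT.B) ⊥ = 0 := by
    intro h h' r hr
    obtain ⟨δ, hδ, -, h1⟩ := exists_null (P := fun j ε => ∀ r ∈ N.Sc,
      I (dg (Q.H j).x 1 ⊔ dg (Q.H j).v 1) ((Q.rin.inp.H j).κ r ⊔ (Q.H j).B) ⊥ ≤ ε)
      (fun j a b hab h r hr => (h r hr).trans hab) (hF.tv h h')
    exact (s.rx.dg1.sup s.rv.dg1).I_zero ((s.rK hr).sup s.rB) (Rp.bot s.toUni) hδ (h1.mono fun j hj => hj r hr)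
  obtain ⟨D, hD1, hD4, r, hr, r', hr', hlt, v, hv⟩ := top hst s.T s.HT s.fT w1 w ρ σ N.Sc c0 una' hρ fz fz' hσ
    (fun r hr => N.Sc_le hr) N.σ_mem N.dns tF tv
  obtain ⟨v', p, hv0, hp, hvv, ho⟩ := s.outl_back hl hr hr' (N.Sc_nn hr) hw1 (by linarith) hlt hv
  exact ⟨D, hD1, hD4, ⟨r, hr⟩, ⟨r', hr'⟩, v', p, by exact_mod_cast hv0, by exact_mod_cast hp, hv.2.1, hlt,
    (by linarith [hv.2.2.1] : w * r' + (v' : ℝ) ≤ 1), ho⟩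

end

end Pool.Agent.Helper98.LV
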