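import Pool.Agent.Helper98.FR.Inp

/-! SCALES: an enumeration of the scales of the windows of a box. -/

set_option autoImplicit false

namespace Pool.Agent.Helper98.LV

open Finset Filter Topology Pool.Agent.Helper31.NSB

noncomputable section

/-- an enumeration of scales: `0` first, all others positive and at most `A`; contains `σ` and all rationals of
`(0, A)` -/
structure Scl (σ A : ℝ) where
  ν : ℕ → ℝ
  ν0 : ν 0 = 0
  pos : ∀ i, i ≠ 0 → 0 < ν i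
  le : ∀ i, ν i ≤ A
  hσ : ∃ i, ν i = σ
  rat : ∀ q : ℚ, 0 < (q : ℝ) → (q : ℝ) < A → ∃ i, ν i = q

theorem exists_scl {σ A : ℝ} (h0 : 0 < σ) (h1 : σ ≤ A) : Nonempty (Scl σ A) := by
  classical
  obtain ⟨T, hT⟩ : ∃ T : Set ℝ, T = {r | 0 < r ∧ r ≤ A ∧ (r = σ ∨ ∃ q : ℚ, (q : ℝ) = r)} := ⟨_, rfl⟩
  have hc : T.Countable := by
    have h2 : T ⊆ {σ} ∪ Set.range (fun q : ℚ => (q : ℝ)) := by
      rw [hT]
      rintro r ⟨-, -, h | ⟨q, h⟩⟩
      · exact Or.inl h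
      · exact Or.inr ⟨q, h⟩
    exact ((Set.countable_singleton σ).union (Set.countable_range _)).mono h2
  have hσT : σ ∈ T := by
    rw [hT]
    exact ⟨h0, h1, Or.inl rfl⟩
  obtain ⟨f, hf⟩ := hc.exists_eq_range ⟨σ, hσT⟩
  have hm : ∀ i, f i ∈ T := fun i => by
    rw [hf]
    exact ⟨i, rfl⟩
  have hm' : ∀ i, 0 < f i ∧ f i ≤ A := fun i => by
    have h2 := hm i
    rw [hT] at h2
    exact ⟨h2.1, h2.2.1⟩
  obtain ⟨ν, hν⟩ : ∃ ν : ℕ → ℝ, ν = fun i => if i = 0 then 0 else f (i - 1) := ⟨_, rfl⟩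
  have e0 : ν 0 = 0 := by rw [hν]; exact if_pos rfl
  have e1 : ∀ i, ν (i + 1) = f i := fun i => by
    rw [hν]
    show (if i + 1 = 0 then 0 else f (i + 1 - 1)) = f i
    rw [if_neg (Nat.succ_ne_zero i), Nat.add_sub_cancel]
  have e2 : ∀ r ∈ T, ∃ i, ν i = r := fun r hr => by
    have h2 : r ∈ Set.range f := by rw [← hf]; exact hr
    obtain ⟨i, hi⟩ := h2
    exact ⟨i + 1, (e1 i).trans hi⟩
  refine ⟨⟨ν, e0, fun i hi => ?_, fun i => ?_, e2 σ hσT, fun q hq0 hq1 => e2 q ?_⟩⟩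
  · obtain ⟨k, rfl⟩ := Nat.exists_eq_succ_of_ne_zero hi
    rw [e1 k]
    exact (hm' _).1
  · cases i with
    | zero => rw [e0]; linarith
    | succ k =>
      rw [e1 k]
      exact (hm' _).2
  · rw [hT]
    exact ⟨hq0, hq1.le, Or.inr ⟨q, rfl⟩⟩

namespace Scl

variable {σ A : ℝ} (N : Scl σ A)

theorem nn (i : ℕ) : 0 ≤ N.ν i := by
  by_cases h : i = 0
  · rw [h, N.ν0]
  · exact (N.pos i h).le

/-- the scales of the corner -/
def Sc : Set ℝ := {r | r ≤ σ ∧ ∃ i, N.ν i = r}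

open Classical in
/-- the index of a scale -/
def ix (r : ℝ) : ℕ := if r = 0 then 0 else if h : ∃ i, N.ν i = r then h.choose else 0

theorem ix0 : N.ix 0 = 0 := if_pos rfl

theorem ix_eq' {r : ℝ} (h : ∃ i, N.ν i = r) : N.ν (N.ix r) = r := by
  unfold ix
  by_cases h0 : r = 0
  · rw [if_pos h0, N.ν0, h0]
  · rw [if_neg h0, dif_pos h]
    exact h.choose_spec

theorem ix_eq {r : ℝ} (h : r ∈ N.Sc) : N.ν (N.ix r) = r := N.ix_eq' h.2

theorem Sc_nn {r : ℝ} (h : r ∈ N.Sc) : 0 ≤ r := by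
  rw [← N.ix_eq h]
  exact N.nn _

theorem Sc_le {r : ℝ} (h : r ∈ N.Sc) : r ≤ σ := h.1

theorem σ_mem : σ ∈ N.Sc := ⟨le_rfl, N.hσ⟩

include N in
theorem σ_nn : 0 ≤ σ := N.Sc_nn N.σ_mem

theorem zero_mem : (0 : ℝ) ∈ N.Sc := ⟨N.σ_nn, 0, N.ν0⟩

include N in
theorem σ_le : σ ≤ A := by
  obtain ⟨i, hi⟩ := N.hσ
  rw [← hi]
  exact N.le i

theorem Sc_countable : N.Sc.Countable :=
  (Set.countable_range N.ν).mono fun _ h => h.2

instance : Countable N.Sc := N.Sc_countable.to_subtype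

/-- density -/
theorem dn {a a' : ℝ} (h0 : 0 ≤ a) (h : a < a') (h1 : a' ≤ A) : ∃ i, a < N.ν i ∧ N.ν i < a' := by
  obtain ⟨q, hq, hq'⟩ := exists_rat_btwn h
  obtain ⟨i, hi⟩ := N.rat q (h0.trans_lt hq) (hq'.trans_le h1)
  exact ⟨i, by rw [hi]; exact hq, by rw [hi]; exact hq'⟩

theorem dns : Dns N.Sc σ := by
  intro a b h0 h h1
  obtain ⟨i, h2, h3⟩ := N.dn h0 h (h1.trans N.σ_le)
  exact ⟨N.ν i, ⟨(h3.trans_le h1).le, i, rfl⟩, h2, h3⟩

/-- density of the windows -/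
theorem dnw {c e : ℝ} (he : 0 < e) {B : ℝ} (hB : B ≤ A) : ∀ a a', c ≤ a → a < a' → a' ≤ c + e * B →
    ∃ j, a < c + e * N.ν j ∧ c + e * N.ν j < a' := by
  intro a a' h0 h h1
  have h2 : 0 ≤ (a - c) / e := div_nonneg (by linarith) he.le
  have h3 : (a - c) / e < (a' - c) / e := div_lt_div_of_pos_right (by linarith) he
  have h4 : (a' - c) / e ≤ A := by
    rw [div_le_iff₀ he]
    have := mul_le_mul_of_nonneg_left hB he.le
    linarith
  obtain ⟨j, h5, h6⟩ := N.dn h2 h3 h4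
  refine ⟨j, ?_, ?_⟩
  · rw [div_lt_iff₀ he] at h5
    linarith
  · rw [lt_div_iff₀ he] at h6
    linarith

end Scl

end

end Pool.Agent.Helper98.LV
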