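import Pool.Agent.Helper98.LV.Fld
import Pool.Agent.Helper30.UNS.Rd

/-! UNSATURATED TOP COORDINATE of the corners of the sequence of boxes. -/

set_option autoImplicit false

namespace Pool.Agent.Helper98.LV

open Finset Filter Topology Pool.Agent.Helper69.RK Pool.Agent.Helper31.EC
open Pool.Agent.Helper82.TP Pool.Agent.Helper40.EL Pool.Agent.Helper60.CS Pool.Agent.Helper79.NF
open Pool.Agent.Helper31.NSB Pool.Agent.Helper80.HCI Pool.Agent.Helper52.KP Pool.Agent.Helper98.FR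
open Pool.Agent.Helper71.AGR Pool.Agent.Helper30.UNS

noncomputable section

open Sp QS

theorem unBe_mono {T : Sp} {H : RD T} {b0 ρ ε ε' : ℝ} (h : UnBe H b0 ρ ε) (hε : ε ≤ ε') : UnBe H b0 ρ ε' :=
  fun a b h0 hab hb => fun T p E hE => (h a b h0 hab hb T p E hE).trans (by linarith)

namespace Sq

variable {S : Sp} {σ A : ℝ} {s : Sys S 3} {lamf etaf : ℝ → ℝ} {c w1 w : ℝ} {N : Scl σ A} (Q : Sq s lamf etaf c w1 w N)

theorem unbe {d y' ρ : ℝ} {y : ℝ → ℝ} (H : NcH C3 s c d lamf etaf y) (hd : 0 < d) (hl : HasDerivAt lamf w1 c)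
    (hη : HasDerivAt etaf w c) (hw1 : 1 ≤ w1) (hw : 1 ≤ w) (hor : lamf c < etaf c ∨ (lamf c = etaf c ∧ w1 = w))
    (hy : HasDerivAt y y' (etaf c)) (h0 : 0 < etaf c) (h1 : etaf c < 1) (hc : c < 1) (hlc : lamf c < 1)
    (hσ : max w1 w * σ = 1) (hρ : y' ≤ 3 - ρ) :
    ∀ ε : ℝ, 0 < ε → ∀ᶠ j in atTop, UnBe (Q.rin.inp.H j) (w * σ) ρ ε := by
  intro ε hε
  have hσ0 := N.σ_nn
  have hwσ : w * σ ≤ 1 := by
    rw [← hσ]
    exact mul_le_mul_of_nonneg_right (le_max_right _ _) hσ0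
  have hw1σ : w1 * σ ≤ 1 := by
    rw [← hσ]
    exact mul_le_mul_of_nonneg_right (le_max_left _ _) hσ0
  have hσ1 : σ ≤ 1 := by
    have : 1 * σ ≤ w * σ := mul_le_mul_of_nonneg_right hw hσ0
    linarith
  obtain ⟨e0, ε', he0, hε', g⟩ := rob_uns_raw H hd hη hw hl hor hy h0 h1 (A := 1) (b0 := w * σ) (ε := ε) zero_le_one
    (by positivity) hwσ hε
  obtain ⟨e3, he3, g3⟩ := incr_e hl hσ0 hε'
  filter_upwards [Q.small hlc h1 (min e0 (min e3 (1 - c))) (lt_min he0 (lt_min he3 (by linarith))),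
    Q.ε0.eventually (gt_mem_nhds (show (0 : ℝ) < min ε' 1 from lt_min hε' one_pos))] with j hj hεj
  obtain ⟨k0, k2, k3⟩ := hj
  have k1 := k0.trans (min_le_left _ _)
  have k4 := (k0.trans (min_le_right _ _)).trans (min_le_left _ _)
  have k5 := (k0.trans (min_le_right _ _)).trans (min_le_right _ _)
  have l1 := hεj.le.trans (min_le_left _ _)
  have l2 := hεj.le.trans (min_le_right _ _)
  have he := Q.he j
  have hεp := Q.hε j
  have hle := mul_pos hεp he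
  have e1 : c + Q.e j * N.ν (N.ix σ) = c + Q.e j * σ := by rw [N.ix_eq N.σ_mem]
  have m3 : Q.e j * σ ≤ Q.e j := mul_le_of_le_one_right he.le hσ1
  have m4 : 0 ≤ Q.e j * σ := by positivity
  have m5 : 0 ≤ ε' * Q.e j := by positivity
  intro a b ha hab hb W p E hE
  have ha' : (0 : ℝ) ≤ a := by exact_mod_cast ha
  have hab' : (a : ℝ) ≤ b := by exact_mod_cast hab
  have h2 := g (Q.e j) he k1 _ _ _ _ (Q.X j).b 0 (N.ix σ) (lvt etaf c (Q.ε j) (Q.e j))
    (Cb.lvt_le (Q.hε j) (Q.he j) (Q.X j)) (w * σ - Q.ε j) ?_ ?_ ?_ ?_ ?_ ?_ (by linarith) (Q.frm j) a b ha' hab' hb W p E hE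
  · refine h2.trans ?_
    have : (y' - 2) * ((b : ℝ) - a) ≤ (1 - ρ) * ((b : ℝ) - a) := mul_le_mul_of_nonneg_right (by linarith) (by linarith)
    linarith
  · unfold lvt
    have e2 : etaf c - Q.ε j * Q.e j - etaf c = -(Q.ε j * Q.e j) := by ring
    rw [e2, abs_neg, abs_of_pos hle]
    exact mul_le_mul_of_nonneg_right l2 he.le
  · show c + Q.e j * N.ν 0 ≤ c + Q.e j * N.ν (N.ix σ)
    rw [Cb.q0, e1]
    linarith
  · show c + Q.e j * N.ν 0 + Q.e j ≤ 1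
    rw [Cb.q0]
    linarith
  · show lamf (c + Q.e j * N.ν 0) + Q.e j ≤ 1
    rw [Cb.q0]
    linarith
  · show c + Q.e j * N.ν (N.ix σ) ≤ c + Q.e j * N.ν 0 + Q.e j + ε' * Q.e j
    rw [Cb.q0, e1]
    linarith
  · show lamf (c + Q.e j * N.ν (N.ix σ)) ≤ lamf (c + Q.e j * N.ν 0) + Q.e j + ε' * Q.e j
    rw [Cb.q0, e1]
    have m1 := abs_le.1 (g3 (Q.e j) he k4 σ (by rw [abs_of_nonneg hσ0]))
    have m6 : w1 * (σ * Q.e j) ≤ Q.e j := by
      rw [← mul_assoc]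
      exact mul_le_of_le_one_left he.le hw1σ
    have m7 : lamf (c + Q.e j * σ) = lamf (c + σ * Q.e j) := by rw [mul_comm]
    rw [m7]
    linarith [m1.2]

end Sq

end

end Pool.Agent.Helper98.LV
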